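import Mathlib

set_option maxHeartbeats 400000
set_option linter.unusedSectionVars false

namespace Pool.Agent.H.MP_54c2ef_al

open Module

section Lev

variable {D M ι : Type*} [DivisionRing D] [AddCommGroup M] [Module D M]

/-- product of the operators along a word -/
def wp (T : ι → Module.End D M) (w : List ι) : Module.End D M := (w.map T).prod

@[simp] lemma wp_nil (T : ι → Module.End D M) : wp T [] = 1 := by simp [wp]

lemma wp_cons (T : ι → Module.End D M) (j : ι) (w : List ι) : wp T (j :: w) = T j * wp T w := by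
  simp [wp]

lemma wp_append (T : ι → Module.End D M) (u w : List ι) : wp T (u ++ w) = wp T u * wp T w := by
  simp [wp]

lemma wp_mem (T : ι → Module.End D M) (W : Submodule D M) (hW : ∀ j, ∀ x ∈ W, T j x ∈ W)
    (w : List ι) : ∀ x ∈ W, wp T w x ∈ W := by
  induction w with
  | nil => simp
  | cons j w ih => intro x hx; rw [wp_cons]; exact hW j _ (ih x hx)

theorem levitzki_aux (T : ι → Module.End D M) (V : Submodule D M) [FiniteDimensional D V]
    (hnil : ∀ w : List ι, w ≠ [] → ∃ k : ℕ, ∀ x ∈ V, ((wp T w) ^ k) x = 0) :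
    ∀ (n : ℕ) (U W : Submodule D M), U ≤ W → W ≤ V → (∀ j, ∀ x ∈ U, T j x ∈ U) →
      (∀ j, ∀ x ∈ W, T j x ∈ W) → finrank D W ≤ finrank D U + n →
      ∀ w : List ι, n ≤ w.length → ∀ x ∈ W, wp T w x ∈ U := by
  intro n
  induction n using Nat.strong_induction_on with
  | _ n ih =>
  intro U W hUW hWV hU hW hrk w hw x hx
  have : FiniteDimensional D W := Submodule.finiteDimensional_of_le hWV
  have : FiniteDimensional D U := Submodule.finiteDimensional_of_le hUW
  by_cases hEq : U = W
  · subst hEq; exact wp_mem T U hU w x hx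
  have hlt : finrank D U < finrank D W := Submodule.finrank_lt_finrank_of_lt (lt_of_le_of_ne hUW hEq)
  by_cases hall : ∀ s : List ι, s ≠ [] → W.map (wp T s) ≤ U
  · have : w ≠ [] := by
      rintro rfl
      simp at hw
      omega
    exact hall w this ⟨x, hx, rfl⟩
  push Not at hall
  classical
  have hex : ∃ m : ℕ, ∃ s : List ι, s ≠ [] ∧ ¬ W.map (wp T s) ≤ U ∧
      finrank D ↥(W.map (wp T s) ⊔ U) = m := by
    obtain ⟨s, hs, hs'⟩ := hall
    exact ⟨_, s, hs, hs', rfl⟩
  obtain ⟨s, hs0, hsU, hsm⟩ := Nat.find_spec hex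
  have hmin : ∀ s' : List ι, s' ≠ [] → ¬ W.map (wp T s') ≤ U →
      finrank D ↥(W.map (wp T s) ⊔ U) ≤ finrank D ↥(W.map (wp T s') ⊔ U) := by
    intro s' h1 h2
    rw [hsm]
    exact Nat.find_min' hex ⟨s', h1, h2, rfl⟩
  have hmapW : ∀ b : List ι, W.map (wp T b) ≤ W := by
    rintro b _ ⟨y, hy, rfl⟩
    exact wp_mem T W hW b y hy
  have hmapU : ∀ b : List ι, U.map (wp T b) ≤ U := by
    rintro b _ ⟨y, hy, rfl⟩
    exact wp_mem T U hU b y hy
  have key : ∀ b : List ι, W.map (wp T (s ++ b ++ s)) ≤ U := by
    intro b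
    by_contra hc
    set Z := W.map (wp T s) ⊔ U with hZ
    have hZW : Z ≤ W := sup_le (hmapW s) hUW
    have : FiniteDimensional D Z := Submodule.finiteDimensional_of_le hZW
    have hle : W.map (wp T (s ++ b ++ s)) ⊔ U ≤ Z := by
      refine sup_le ?_ le_sup_right
      rintro _ ⟨y, hy, rfl⟩
      rw [List.append_assoc, wp_append]
      exact Submodule.mem_sup_left ⟨_, wp_mem T W hW _ y hy, rfl⟩
    have heq : W.map (wp T (s ++ b ++ s)) ⊔ U = Z :=
      Submodule.eq_of_le_of_finrank_le hle (hmin _ (by simp [hs0]) hc)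
    have h1 : Z ≤ Z.map (wp T (s ++ b)) ⊔ U := by
      conv_lhs => rw [← heq]
      refine sup_le ?_ le_sup_right
      rintro _ ⟨y, hy, rfl⟩
      rw [wp_append T (s ++ b) s]
      exact Submodule.mem_sup_left ⟨_, Submodule.mem_sup_left ⟨y, hy, rfl⟩, rfl⟩
    have h2 : ∀ k : ℕ, Z ≤ Z.map ((wp T (s ++ b)) ^ k) ⊔ U := by
      intro k
      induction k with
      | zero => simp [Module.End.one_eq_id]
      | succ k ihk =>
        refine h1.trans (sup_le ?_ le_sup_right)
        rintro _ ⟨y, hy, rfl⟩
        obtain ⟨a, ⟨a', ha', rfl⟩, u, hu, rfl⟩ := Submodule.mem_sup.1 (ihk hy)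
        rw [map_add]
        refine Submodule.add_mem _ (Submodule.mem_sup_left ⟨a', ha', ?_⟩)
          (Submodule.mem_sup_right (wp_mem T U hU _ u hu))
        rw [pow_succ']; rfl
    obtain ⟨k, hk⟩ := hnil (s ++ b) (by simp [hs0])
    have h3 : Z ≤ U := by
      refine (h2 k).trans (sup_le ?_ le_rfl)
      rintro _ ⟨y, hy, rfl⟩
      rw [hk y (hWV (hZW hy))]
      exact U.zero_mem
    exact hsU (le_sup_left.trans h3)
  set W' : Submodule D M := U ⊔ ⨆ b : List ι, W.map (wp T (b ++ s)) with hW'
  have hUW' : U ≤ W' := le_sup_left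
  have hW'W : W' ≤ W := sup_le hUW (iSup_le fun b => hmapW _)
  have hinv : ∀ j, ∀ y ∈ W', T j y ∈ W' := by
    intro j
    have : W'.map (T j) ≤ W' := by
      rw [hW', Submodule.map_sup, Submodule.map_iSup]
      refine sup_le ?_ (iSup_le fun b => ?_)
      · rintro _ ⟨y, hy, rfl⟩
        exact Submodule.mem_sup_left (hU j y hy)
      · rintro _ ⟨_, ⟨y, hy, rfl⟩, rfl⟩
        refine Submodule.mem_sup_right (Submodule.mem_iSup_of_mem (j :: b) ⟨y, hy, ?_⟩)
        rw [List.cons_append, wp_cons]; rfl
    intro y hy
    exact this ⟨y, hy, rfl⟩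
  have hne1 : U ≠ W' := by
    intro h
    apply hsU
    rw [h]
    exact le_sup_right.trans' (le_iSup (fun b : List ι => W.map (wp T (b ++ s))) [])
  have hne2 : W' ≠ W := by
    intro h
    apply hsU
    conv_lhs => rw [← h]
    rw [hW', Submodule.map_sup, Submodule.map_iSup]
    refine sup_le (hmapU s) (iSup_le fun b => ?_)
    rintro _ ⟨_, ⟨y, hy, rfl⟩, rfl⟩
    refine key b ⟨y, hy, ?_⟩
    rw [List.append_assoc, wp_append]; rfl
  have : FiniteDimensional D W' := Submodule.finiteDimensional_of_le hW'W
  have hl1 : finrank D U < finrank D W' :=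
    Submodule.finrank_lt_finrank_of_lt (lt_of_le_of_ne hUW' hne1)
  have hl2 : finrank D W' < finrank D W :=
    Submodule.finrank_lt_finrank_of_lt (lt_of_le_of_ne hW'W hne2)
  set a := finrank D W' - finrank D U with ha
  have e : w = w.take a ++ w.drop a := (List.take_append_drop a w).symm
  rw [e, wp_append]
  have hx' : wp T (w.drop a) x ∈ W' :=
    ih (finrank D W - finrank D W') (by omega) W' W hW'W hWV hinv hW (by omega) _
      (by rw [List.length_drop]; omega) x hx
  exact ih a (by omega) U W' hUW' (hW'W.trans hWV) hU hinv (by omega) _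
    (by rw [List.length_take]; omega) _ hx'

/-- Levitzki: operators all of whose words are nilpotent on a finite-dimensional invariant
subspace are jointly nilpotent there. -/
theorem levitzki (T : ι → Module.End D M) (V : Submodule D M) [FiniteDimensional D V]
    (hV : ∀ j, ∀ x ∈ V, T j x ∈ V)
    (hnil : ∀ w : List ι, w ≠ [] → ∃ k : ℕ, ∀ x ∈ V, ((wp T w) ^ k) x = 0)
    (w : List ι) (hw : finrank D V ≤ w.length) : ∀ x ∈ V, wp T w x = 0 := by
  intro x hx
  have := levitzki_aux T V hnil (finrank D V) ⊥ V bot_le le_rfl (by simp) hV (by simp) w hw x hx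
  simpa using this

end Lev

section Aut

variable {ι X S : Type*} [Fintype ι] [DecidableEq ι] [CommRing S]

/-- apply the operators along a word, first letter first -/
def it (T : ι → X → X) (w : List ι) (a : X) : X := w.foldl (fun a j => T j a) a

@[simp] lemma it_nil (T : ι → X → X) (a : X) : it T [] a = a := rfl
@[simp] lemma it_cons (T : ι → X → X) (j : ι) (w : List ι) (a : X) :
    it T (j :: w) a = it T w (T j a) := rfl
lemma it_append (T : ι → X → X) (u w : List ι) (a : X) :
    it T (u ++ w) a = it T w (it T u a) := by simp [it]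

/-- path matrices reading the word `r` -/
def pth (S : Type*) [CommRing S] (r : List ι) (j : ι) :
    Matrix (Fin (r.length + 1)) (Fin (r.length + 1)) S :=
  Matrix.of fun p q => if (q : ℕ) = p + 1 ∧ r[(p : ℕ)]? = some j then 1 else 0

lemma tail_lemma (r : List ι) (t : S) (T : ι → X → X) (c : X → S)
    (G : Fin (r.length + 1) → X → S)
    (hG : ∀ p a, G p a = (if p = Fin.last _ then c a else 0) +
      ∑ j, ∑ q, (t * pth S r j p q) * G q (T j a)) :
    ∀ (n : ℕ) (p : Fin (r.length + 1)), (p : ℕ) + n = r.length → ∀ a,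
      G p a = t ^ n * c (it T (r.drop p) a) := by
  intro n
  induction n with
  | zero =>
    intro p hp a
    have hp' : p = Fin.last _ := by ext; simpa using hp
    rw [hG, if_pos hp']
    have : ∀ j q, pth S r j p q = 0 := by
      intro j q
      have := q.2
      simp only [pth, Matrix.of_apply]
      rw [if_neg]
      omega
    simp only [this]
    simp [hp']
  | succ n ih =>
    intro p hp a
    have hlt : (p : ℕ) < r.length := by omega
    have hp' : p ≠ Fin.last _ := by
      intro h; rw [h] at hlt; simp at hlt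
    rw [hG, if_neg hp', zero_add, Finset.sum_eq_single (r[(p : ℕ)]),
      Finset.sum_eq_single (⟨p + 1, by omega⟩ : Fin (r.length + 1))]
    · rw [ih _ (by simp; omega), List.drop_eq_getElem_cons hlt, it_cons]
      simp [pth, List.getElem?_eq_getElem hlt]
      ring
    · intro q _ hq
      have : ¬ ((q : ℕ) = p + 1) := fun h => hq (Fin.ext h)
      simp [pth, this]
    · simp
    · intro j _ hj
      have : ¬ (r[(p : ℕ)] = j) := fun h => hj h.symm
      simp [pth, List.getElem?_eq_getElem hlt, this]
    · simp

/-- states of the automaton reading `w^m r` -/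
abbrev St (w r : List ι) := Fin (w.length + 1) ⊕ Fin (r.length + 1)

/-- automaton reading `(w ++ [e])^m r`, with weight `μ` on each turn -/
def aut (μ : S) (w : List ι) (e : ι) (r : List ι) (j : ι) : Matrix (St w r) (St w r) S :=
  Matrix.of fun p q => match p, q with
    | Sum.inl p, Sum.inl q => pth S w j p q + if p = Fin.last _ ∧ q = 0 ∧ e = j then μ else 0
    | Sum.inl p, Sum.inr q => if p = Fin.last _ ∧ q = 0 ∧ e = j then μ else 0
    | Sum.inr _, Sum.inl _ => 0
    | Sum.inr p, Sum.inr q => pth S r j p q

lemma aut_lemma (μ t : S) (w : List ι) (e : ι) (r : List ι) (T : ι → X → X) (c : X → S)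
    (G : St w r → X → S)
    (hG : ∀ p a, G p a = (if p = Sum.inr (Fin.last _) then c a else 0) +
      ∑ j, ∑ q, (t * aut μ w e r j p q) * G q (T j a)) (a : X) :
    G (Sum.inl 0) a + G (Sum.inr 0) a = t ^ r.length * c (it T r a) +
      t ^ (w.length + 1) * μ * (G (Sum.inl 0) (it T (w ++ [e]) a) +
        G (Sum.inr 0) (it T (w ++ [e]) a)) := by
  have h1 := tail_lemma r t T c (fun p => G (Sum.inr p)) (by
    intro p a
    rw [hG]
    simp [Fintype.sum_sum_type, aut]) r.length 0 (by simp) a
  have h2 := tail_lemma w t T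
    (fun a => t * μ * (G (Sum.inl 0) (T e a) + G (Sum.inr 0) (T e a)))
    (fun p => G (Sum.inl p)) (by
      intro p a
      rw [hG]
      simp only [Fintype.sum_sum_type, aut, Matrix.of_apply, mul_add, add_mul,
        Finset.sum_add_distrib, reduceCtorEq, if_false, zero_add]
      by_cases hp : p = Fin.last _
      · simp only [hp, true_and, if_true]
        rw [Finset.sum_eq_single e (f := fun j => ∑ q : Fin (w.length + 1),
            (t * if q = 0 ∧ e = j then μ else 0) * G (Sum.inl q) (T j a)),
          Finset.sum_eq_single e (f := fun j => ∑ q : Fin (r.length + 1),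
            (t * if q = 0 ∧ e = j then μ else 0) * G (Sum.inr q) (T j a))]
        · simp
          ring
        · intro j _ hj
          simp [Ne.symm hj]
        · simp
        · intro j _ hj
          simp [Ne.symm hj]
        · simp
      · simp [hp]) w.length 0 (by simp) a
  simp only [Fin.val_zero, List.drop_zero] at h1 h2
  rw [h1, h2, it_append]
  simp only [it_cons, it_nil]
  ring

lemma it_eq_wp {D M : Type*} [DivisionRing D] [AddCommGroup M] [Module D M]
    (T : ι → Module.End D M) (w : List ι) (a : M) :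
    it (fun j => (T j : M → M)) w a = wp T w.reverse a := by
  induction w generalizing a with
  | nil => simp
  | cons j w ih => rw [it_cons, ih, List.reverse_cons, wp_append]; simp [wp]

end Aut

section Nil

open Polynomial

/-- an endomorphism such that `1 - μ T` hits all separating functionals is nilpotent -/
theorem nil_of_functionals {K L V ρ : Type*} [Field K] [Field L] [Algebra K L] [IsAlgClosed L]
    [AddCommGroup V] [Module K V] [FiniteDimensional K V] (T : Module.End K V)
    (η : ρ → V →ₗ[K] K) (hsep : ∀ s : V, (∀ r, η r s = 0) → s = 0)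
    (h : ∀ (r : ρ) (μ : L), ∃ γ : V →ₗ[K] L, ∀ a, γ a = algebraMap K L (η r a) + μ * γ (T a)) :
    IsNilpotent T := by
  classical
  let b := Module.finBasis K V
  set M := LinearMap.toMatrix b b T with hM
  set ML := M.map (algebraMap K L) with hML
  have hroot : ∀ a ∈ ML.charpoly.roots, a = 0 := by
    intro a ha
    by_contra ha0
    have h1 : IsRoot ML.charpoly a := (mem_roots ML.charpoly_monic.ne_zero).1 ha
    rw [IsRoot.def, Matrix.eval_charpoly] at h1
    obtain ⟨c, hc0, hc⟩ := Matrix.exists_mulVec_eq_zero_iff.2 h1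
    have hc' : ML.mulVec c = a • c := by
      rw [Matrix.sub_mulVec, sub_eq_zero] at hc
      rw [← hc]
      ext i
      simp [Matrix.mulVec_diagonal]
    have h2 : ∀ r, ∑ i, c i * algebraMap K L (η r (b i)) = 0 := by
      intro r
      obtain ⟨γ, hγ⟩ := h r a⁻¹
      have h3 : ∑ i, c i * γ (T (b i)) = a * ∑ i, c i * γ (b i) := by
        have : ∀ i, γ (T (b i)) = ∑ k, ML k i * γ (b k) := by
          intro i
          conv_lhs => rw [← b.sum_repr (T (b i))]
          rw [map_sum]
          refine Finset.sum_congr rfl fun k _ => ?_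
          rw [map_smul, Algebra.smul_def, hML, hM, Matrix.map_apply, LinearMap.toMatrix_apply]
        simp only [this, Finset.mul_sum]
        rw [Finset.sum_comm]
        refine Finset.sum_congr rfl fun k _ => ?_
        have := congrFun hc' k
        simp only [Matrix.mulVec, dotProduct, Pi.smul_apply, smul_eq_mul] at this
        rw [← mul_assoc, ← this, Finset.sum_mul]
        refine Finset.sum_congr rfl fun i _ => by ring
      have h4 : ∑ i, c i * γ (b i) = ∑ i, c i * algebraMap K L (η r (b i)) +
          a⁻¹ * ∑ i, c i * γ (T (b i)) := by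
        rw [Finset.mul_sum, ← Finset.sum_add_distrib]
        refine Finset.sum_congr rfl fun i _ => ?_
        rw [hγ (b i)]; ring
      rw [h3, ← mul_assoc, inv_mul_cancel₀ ha0, one_mul] at h4
      linear_combination -h4
    apply hc0
    ext i
    rw [Pi.zero_apply, ← Module.forall_dual_apply_eq_zero_iff K]
    intro l
    have h5 : ∑ i, l (c i) • b i = 0 := by
      apply hsep
      intro r
      have := congrArg l (h2 r)
      rw [map_sum, map_zero] at this
      rw [map_sum, ← this]
      refine Finset.sum_congr rfl fun i _ => ?_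
      rw [map_smul, mul_comm, ← Algebra.smul_def, map_smul, smul_eq_mul, smul_eq_mul, mul_comm]
    exact Fintype.linearIndependent_iff.1 b.linearIndependent _ h5 i
  have hp : ML.charpoly = X ^ (Multiset.card ML.charpoly.roots) := by
    have := (IsAlgClosed.splits ML.charpoly).eq_prod_roots_of_monic ML.charpoly_monic
    conv_lhs => rw [this]
    rw [Multiset.map_congr rfl (g := fun _ => (X : L[X])) (fun a ha => by simp [hroot a ha])]
    simp
  have hn := ML.aeval_self_charpoly
  rw [hp, map_pow, aeval_X] at hn
  refine ⟨Multiset.card ML.charpoly.roots, ?_⟩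
  apply (LinearMap.toMatrix b b).injective
  rw [← LinearMap.toMatrix_pow, map_zero, ← hM]
  apply Matrix.map_injective (algebraMap K L).injective
  have : (algebraMap K L).mapMatrix (M ^ Multiset.card ML.charpoly.roots) = 0 := by
    rw [map_pow]; exact hn
  simpa using this

end Nil

end Pool.Agent.H.MP_54c2ef_al
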