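import Mathlib
import Pool.Agent.H.MP_54c2ef_al.Lev

set_option maxHeartbeats 400000
set_option linter.unusedSectionVars false

namespace Pool.Agent.H.MP_54c2ef_al

open MonoidAlgebra Module

/-- free algebra over a possibly noncommutative coefficient ring -/
abbrev FA (Λ ι : Type*) [Semiring Λ] := MonoidAlgebra Λ (FreeMonoid ι)

section Tau

variable {ι Λ Λ' : Type*} [Fintype ι] [DecidableEq ι] [Ring Λ] [Ring Λ']

/-- left quotient by a letter -/
noncomputable def qd (j : ι) (R : FA Λ ι) : FA Λ ι :=
  comapDomain (fun w => FreeMonoid.of j * w) (mul_right_injective _) R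

lemma qd_coeff (j : ι) (R : FA Λ ι) (w : FreeMonoid ι) :
    (qd j R).coeff w = R.coeff (FreeMonoid.of j * w) := by
  simp [qd]

lemma decomp (R : FA Λ ι) :
    R = single 1 (R.coeff 1) + ∑ j, single (FreeMonoid.of j) 1 * qd j R := by
  ext w
  rw [coeff_add, coeff_sum, Finsupp.add_apply, Finsupp.finsetSum_apply]
  induction w using FreeMonoid.casesOn with
  | one =>
    rw [Finset.sum_eq_zero]
    · simp
    · intro j _
      apply coeff_single_mul_of_forall_mul_ne
      intro d hd
      have := congrArg FreeMonoid.length hd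
      simp at this
  | of_mul x w =>
    rw [Finset.sum_eq_single x, coeff_single_mul_mul, qd_coeff, coeff_single,
      Finsupp.single_eq_of_ne]
    · simp
    · intro hd
      have := congrArg FreeMonoid.length hd
      simp at this
    · intro j _ hj
      apply coeff_single_mul_of_forall_mul_ne
      intro d hd
      have := congrArg FreeMonoid.toList hd
      simp only [FreeMonoid.toList_of_mul, List.cons.injEq] at this
      exact hj this.1
    · simp

/-- one step of the division by `J` -/
noncomputable def tau (L : Λ) (J : FA Λ ι) (j : ι) (R : FA Λ ι) : FA Λ ι :=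
  qd j (R - single 1 (R.coeff 1 * L) * J)

lemma tau_coeff (L : Λ) (J : FA Λ ι) (j : ι) (R : FA Λ ι) (w : FreeMonoid ι) :
    (tau L J j R).coeff w =
      R.coeff (FreeMonoid.of j * w) - R.coeff 1 * L * J.coeff (FreeMonoid.of j * w) := by
  rw [tau, qd_coeff, coeff_sub, Finsupp.sub_apply, coeff_single_one_mul]

lemma tau_id {L : Λ} {J : FA Λ ι} (hL : L * J.coeff 1 = 1) (R : FA Λ ι) :
    R = single 1 (R.coeff 1 * L) * J + ∑ j, single (FreeMonoid.of j) 1 * tau L J j R := by
  have h := decomp (R - single 1 (R.coeff 1 * L) * J)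
  rw [coeff_sub, Finsupp.sub_apply, coeff_single_one_mul, mul_assoc, hL, mul_one, sub_self,
    single_zero, zero_add] at h
  simp only [tau]
  rw [← h]
  abel

lemma left_inv_of_tau {L : Λ} {J : FA Λ ι} (hL : L * J.coeff 1 = 1) :
    ∀ (N : ℕ) (R : FA Λ ι), (∀ w : List ι, w.length = N → it (tau L J) w R = 0) →
      ∃ P, P * J = R := by
  intro N
  induction N with
  | zero =>
    intro R h
    exact ⟨0, by rw [zero_mul]; exact (h [] rfl).symm⟩
  | succ N ih =>
    intro R h
    have : ∀ j, ∃ P, P * J = tau L J j R := fun j =>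
      ih _ fun w hw => h (j :: w) (by simp [hw])
    choose P hP using this
    refine ⟨single 1 (R.coeff 1 * L) + ∑ j, single (FreeMonoid.of j) 1 * P j, ?_⟩
    conv_rhs => rw [tau_id hL R]
    rw [add_mul, Finset.sum_mul]
    simp only [mul_assoc, hP]

lemma tau_obs {L : Λ} {J : FA Λ ι} (R : FA Λ ι)
    (h : ∀ r : List ι, (it (tau L J) r R).coeff 1 * L = 0) (hL : L * J.coeff 1 = 1) : R = 0 := by
  have key : ∀ (w : List ι) (R : FA Λ ι), (∀ r : List ι, (it (tau L J) r R).coeff 1 * L = 0) →
      R.coeff (FreeMonoid.ofList w) = 0 := by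
    intro w
    induction w with
    | nil =>
      intro R h
      have h0 : R.coeff 1 * L = 0 := h []
      have : R.coeff 1 = R.coeff 1 * L * J.coeff 1 := by rw [mul_assoc, hL, mul_one]
      rw [FreeMonoid.ofList_nil, this, h0, zero_mul]
    | cons j w ih =>
      intro R h
      have h0 : R.coeff 1 * L = 0 := h []
      have h1 := ih (tau L J j R) fun r => h (j :: r)
      rw [tau_coeff, h0, zero_mul, sub_zero] at h1
      exact h1
  ext w
  exact key (FreeMonoid.toList w) R h

lemma tau_map (f : Λ →+* Λ') (L : Λ) (J : FA Λ ι) (j : ι) (R : FA Λ ι) :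
    mapRingHom _ f (tau L J j R) = tau (f L) (mapRingHom _ f J) j (mapRingHom _ f R) := by
  ext w
  simp [tau_coeff]

lemma it_tau_map (f : Λ →+* Λ') (L : Λ) (J : FA Λ ι) (w : List ι) (R : FA Λ ι) :
    mapRingHom _ f (it (tau L J) w R) =
      it (tau (f L) (mapRingHom _ f J)) w (mapRingHom _ f R) := by
  induction w generalizing R with
  | nil => rfl
  | cons j w ih => rw [it_cons, it_cons, ih, tau_map]

/-- the division step as a linear map -/
noncomputable def tauL (D : Type*) [Ring D] [Module D Λ] [IsScalarTower D Λ Λ] (L : Λ)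
    (J : FA Λ ι) (j : ι) : Module.End D (FA Λ ι) where
  toFun := tau L J j
  map_add' R R' := by
    ext w
    simp [tau_coeff, add_mul]
    abel
  map_smul' d R := by
    ext w
    simp [tau_coeff, smul_sub, smul_mul_assoc]

lemma tauL_coe (D : Type*) [Ring D] [Module D Λ] [IsScalarTower D Λ Λ] (L : Λ)
    (J : FA Λ ι) : (fun j => (tauL D L J j : FA Λ ι → FA Λ ι)) = tau L J := rfl

/-- words of bounded length -/
def Sh (ι : Type*) (δ : ℕ) : Set (FreeMonoid ι) := {w | w.length ≤ δ}

instance (δ : ℕ) : Finite (Sh ι δ) := List.finite_length_le ι δ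

lemma tau_mem (D : Type*) [Ring D] [Module D Λ] (L : Λ) (J : FA Λ ι) (δ : ℕ)
    (hJ : ∀ w : FreeMonoid ι, δ < w.length → J.coeff w = 0) (j : ι) :
    ∀ R ∈ supported D Λ (Sh ι δ), tau L J j R ∈ supported D Λ (Sh ι δ) := by
  intro R hR
  rw [mem_supported'] at hR ⊢
  intro w hw
  simp only [Sh, Set.mem_ofPred_eq, not_le] at hw hR
  have : δ < (FreeMonoid.of j * w).length := by simp; omega
  rw [tau_coeff, hR _ this, hJ _ this]
  simp

lemma exists_bound (J : FA Λ ι) : ∃ δ : ℕ, ∀ w : FreeMonoid ι, δ < w.length → J.coeff w = 0 := by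
  refine ⟨J.coeff.support.sup FreeMonoid.length, fun w hw => ?_⟩
  by_contra h
  have := Finset.le_sup (f := FreeMonoid.length) (Finsupp.mem_support_iff.2 h)
  omega

lemma it_replicate {X : Type*} (T : ι → X → X) (w : List ι) (k : ℕ) (a : X) :
    it T (List.replicate k w).flatten a = (it T w)^[k] a := by
  induction k generalizing a with
  | zero => rfl
  | succ k ih => rw [List.replicate_succ, List.flatten_cons, it_append, ih]; rfl

end Tau

end Pool.Agent.H.MP_54c2ef_al
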