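import Mathlib
import Pool.Agent.H.MP_54c2ef_al.Tau

set_option maxHeartbeats 400000
set_option linter.unusedSectionVars false

namespace Pool.Agent.H.MP_54c2ef_al

open MonoidAlgebra Module

universe u v

/-- invertible at every matrix point -/
def PtUnit {R n : Type*} [Ring R] [Fintype n] [DecidableEq n] (J : Matrix n n R) : Prop :=
  ∀ (S : Type u) [Field S] (k : Type) [Fintype k] [DecidableEq k] (π : R →+* Matrix k k S),
    IsUnit (π.mapMatrix J)

lemma PtUnit.map {R R' n : Type*} [Ring R] [Ring R'] [Fintype n] [DecidableEq n]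
    {J : Matrix n n R} (h : PtUnit.{u} J) (f : R →+* R') : PtUnit.{u} (f.mapMatrix J) := by
  intro S _ k _ _ π
  exact h S k (π.comp f)

lemma PtUnit.of_left_inv {R n : Type*} [Ring R] [Fintype n] [DecidableEq n]
    {J P : Matrix n n R} (h : PtUnit.{u} J) (hP : P * J = 1) : PtUnit.{u} P := by
  intro S _ k _ _ π
  have h1 : π.mapMatrix P * π.mapMatrix J = 1 := by rw [← map_mul, hP, map_one]
  obtain ⟨U, hU⟩ := h S k π
  rw [← hU, Units.mul_eq_one_iff_eq_inv] at h1
  rw [h1]
  exact Units.isUnit _

lemma comm_scalar {R n : Type*} [Ring R] [Fintype n] [DecidableEq n] (A : Matrix n n R) (z : R)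
    (h : ∀ a b, Commute (A a b) z) : Commute A (Matrix.scalar n z) := by
  ext a b
  rw [Matrix.scalar_apply, Matrix.mul_diagonal, Matrix.diagonal_mul]
  exact h a b

lemma comm_lift {ι B : Type*} [Monoid B] (x : B) (Y : ι → B) (h : ∀ j, Commute x (Y j))
    (w : FreeMonoid ι) : Commute x (FreeMonoid.lift Y w) := by
  induction w using FreeMonoid.inductionOn' with
  | one => simp
  | of_mul j w ih => rw [map_mul]; exact (h j).mul_right ih

section Xi

variable {ι Λ Λ' n : Type*} [Fintype ι] [DecidableEq ι] [Ring Λ] [Ring Λ'] [Fintype n]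
  [DecidableEq n]

/-- evaluation of the free variables at elements commuting with the coefficients -/
noncomputable def evF {B : Type*} [Ring B] (κ : Λ →+* B) (Y : ι → B)
    (h : ∀ x j, Commute (κ x) (Y j)) : FA Λ ι →+* B :=
  liftNCRingHom κ (FreeMonoid.lift Y) fun x w => comm_lift _ _ (h x) w

lemma evF_one {B : Type*} [Ring B] (κ : Λ →+* B) (Y : ι → B)
    (h : ∀ x j, Commute (κ x) (Y j)) (x : Λ) : evF κ Y h (single 1 x) = κ x := by
  simp [evF]

lemma evF_of {B : Type*} [Ring B] (κ : Λ →+* B) (Y : ι → B)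
    (h : ∀ x j, Commute (κ x) (Y j)) (j : ι) : evF κ Y h (single (FreeMonoid.of j) 1) = Y j := by
  simp [evF]

/-- polynomials with matrix coefficients are matrices of polynomials -/
noncomputable def Xi (ι Λ n : Type*) [Ring Λ] [Fintype n] [DecidableEq n] :
    FA (Matrix n n Λ) ι →+* Matrix n n (FA Λ ι) :=
  liftNCRingHom (singleOneRingHom (R := Λ) (M := FreeMonoid ι)).mapMatrix
    ((Matrix.scalar n).toMonoidHom.comp (MonoidAlgebra.of Λ (FreeMonoid ι))) fun x w =>
      comm_scalar _ _ fun a b => by
        simp only [RingHom.mapMatrix_apply, Matrix.map_apply, singleOneRingHom_apply, of_apply]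
        exact single_commute_single (Commute.one_left _) (Commute.one_right _)

lemma Xi_single (w : FreeMonoid ι) (c : Matrix n n Λ) (a b : n) :
    Xi ι Λ n (single w c) a b = single w (c a b) := by
  rw [Xi, liftNCRingHom_single]
  simp [Matrix.mul_diagonal, single_mul_single]

lemma Xi_coeff (R : FA (Matrix n n Λ) ι) (a b : n) (w : FreeMonoid ι) :
    (Xi ι Λ n R a b).coeff w = R.coeff w a b := by
  classical
  induction R using MonoidAlgebra.induction_linear with
  | zero => simp
  | add x y hx hy => simp [hx, hy]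
  | single m c =>
    rw [Xi_single, coeff_single, coeff_single, Finsupp.single_apply, Finsupp.single_apply]
    split_ifs <;> simp

lemma Xi_surj (J : Matrix n n (FA Λ ι)) : ∃ R, Xi ι Λ n R = J := by
  refine ⟨∑ a, ∑ b, MonoidAlgebra.map (Matrix.singleAddMonoidHom a b) (J a b), ?_⟩
  ext a b w
  rw [Xi_coeff]
  simp only [coeff_sum, Finsupp.finsetSum_apply, coeff_map, Finsupp.mapRange_apply,
    Matrix.singleAddMonoidHom_apply, Matrix.sum_apply]
  rw [Finset.sum_eq_single a, Finset.sum_eq_single b]
  · simp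
  · intro b' _ hb; simp [hb]
  · simp
  · intro a' _ ha; simp [ha]
  · simp

lemma Xi_map (f : Λ →+* Λ') (R : FA (Matrix n n Λ) ι) :
    Xi ι Λ' n (mapRingHom _ f.mapMatrix R) = (mapRingHom _ f).mapMatrix (Xi ι Λ n R) := by
  ext a b w
  simp [Xi_coeff]

end Xi

section S3

variable {ι n m : Type} [Fintype ι] [DecidableEq ι] [Fintype n] [DecidableEq n]
  [Fintype m] [DecidableEq m]

theorem tau_nil_field {Ω : Type u} [Field Ω] [IsAlgClosed Ω]
    (L : Matrix n n (Matrix m m Ω)) (J : FA (Matrix n n (Matrix m m Ω)) ι)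
    (hL : L * J.coeff 1 = 1) (hJ : PtUnit.{u} (Xi ι _ n J)) (δ : ℕ)
    (hδ : ∀ w : FreeMonoid ι, δ < w.length → J.coeff w = 0) (w : List ι) (hw : w ≠ []) :
    ∃ k : ℕ, ∀ R ∈ supported Ω (Matrix n n (Matrix m m Ω)) (Sh ι δ),
      (it (tau L J) w)^[k] R = 0 := by
  obtain ⟨w, e, rfl⟩ : ∃ w' e, w = w' ++ [e] :=
    ⟨w.dropLast, w.getLast hw, (List.dropLast_append_getLast hw).symm⟩
  set V := supported Ω (Matrix n n (Matrix m m Ω)) (Sh ι δ) with hV
  have : FiniteDimensional Ω V := (supportedEquivFinsupp (Sh ι δ)).symm.finiteDimensional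
  have hinv : ∀ x ∈ V, wp (tauL Ω L J) (w ++ [e]).reverse x ∈ V :=
    wp_mem _ V (fun j => tau_mem Ω L J δ hδ j) _
  let η : List ι × n × n × m × m → V →ₗ[Ω] Ω := fun r =>
    { toFun := fun R => ((wp (tauL Ω L J) r.1.reverse R).coeff 1 * L) r.2.1 r.2.2.1 r.2.2.2.1
        r.2.2.2.2
      map_add' := fun R R' => by simp [add_mul]
      map_smul' := fun c R => by simp }
  have hnil : IsNilpotent ((wp (tauL Ω L J) (w ++ [e]).reverse).restrict hinv) := by
    refine nil_of_functionals (L := Ω) _ η ?_ ?_
    · intro s hs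
      ext1
      refine tau_obs (L := L) (J := J) _ (fun r => ?_) hL
      ext a b a' b'
      rw [← tauL_coe Ω, it_eq_wp]
      exact hs (r, a, b, a', b')
    · rintro ⟨r, a, b, a', b'⟩ μ
      let Y : ι → Matrix (St w r) (St w r) Ω := aut μ w e r
      let π : FA (Matrix m m Ω) ι →+* Matrix m m (Matrix (St w r) (St w r) Ω) :=
        evF (Matrix.scalar (St w r)).mapMatrix (fun j => Matrix.scalar m (Y j)) fun x j =>
          comm_scalar _ _ fun p q => Matrix.scalar_commute _ (fun _ => Commute.all _ _) _
      have hu : IsUnit (π.mapMatrix (Xi ι _ n J)) := by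
        have := (hJ Ω (m × St w r) ((Matrix.compRingEquiv m (St w r) Ω).toRingHom.comp π)).map
          (Matrix.compRingEquiv m (St w r) Ω).symm.toRingHom.mapMatrix
        convert this using 1
        ext1 a b
        simp
      obtain ⟨Q, hQ⟩ := hu.exists_right_inv
      let ev := π.mapMatrix.comp (Xi ι (Matrix m m Ω) n)
      have hev1 : ∀ c, ev (single 1 c) = (Matrix.scalar (St w r)).mapMatrix.mapMatrix c := by
        intro c
        ext1 a b
        simp only [ev, RingHom.comp_apply, RingHom.mapMatrix_apply, Matrix.map_apply, Xi_single, π,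
          evF_one]
      have hev2 : ∀ j, ev (single (FreeMonoid.of j) 1) =
          Matrix.scalar n (Matrix.scalar m (Y j)) := by
        intro j
        ext1 a b
        simp only [ev, RingHom.comp_apply, RingHom.mapMatrix_apply, Matrix.map_apply, Xi_single]
        by_cases hab : a = b
        · subst hab
          simp only [π, Matrix.one_apply_eq, evF_of, Matrix.scalar_apply (n := n),
            Matrix.diagonal_apply_eq]
        · simp [hab]
      have hsm : ∀ (c : Ω) R, ev (c • R) = c • ev R := by
        intro c R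
        have h1 : c • R = single 1 (algebraMap Ω _ c) * R := by
          ext1
          ext1 u
          rw [coeff_single_one_mul, coeff_smul_apply, Algebra.smul_def]
        rw [h1, map_mul, hev1, Algebra.smul_def]
        congr 1
        exact ((Matrix.scalarAlgHom (St w r) Ω (α := Ω)).mapMatrix.mapMatrix).commutes c
      let G : St w r → FA (Matrix n n (Matrix m m Ω)) ι → Ω := fun p R =>
        (ev R * Q) a b a' b' p (Sum.inr (Fin.last _))
      have hG : ∀ p R, G p R = (if p = Sum.inr (Fin.last _) then (R.coeff 1 * L) a b a' b' else 0)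
          + ∑ j, ∑ q, (1 * aut μ w e r j p q) * G q (tau L J j R) := by
        intro p R
        have h1 : ev R * Q = (Matrix.scalar (St w r)).mapMatrix.mapMatrix (R.coeff 1 * L) +
            ∑ j, Matrix.scalar n (Matrix.scalar m (Y j)) * (ev (tau L J j R) * Q) := by
          conv_lhs => rw [tau_id hL R]
          rw [map_add, map_sum, map_mul, add_mul, Finset.sum_mul, mul_assoc, hev1]
          have : ev J * Q = 1 := hQ
          rw [this, mul_one]
          simp only [map_mul, hev2, mul_assoc]
        simp only [G]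
        rw [h1]
        simp only [Matrix.add_apply, Matrix.sum_apply, Matrix.scalar_apply, Matrix.diagonal_mul,
          RingHom.mapMatrix_apply, Matrix.map_apply, Matrix.diagonal_apply, one_mul]
        rfl
      let γ : V →ₗ[Ω] Ω :=
        { toFun := fun R => G (Sum.inl 0) R + G (Sum.inr 0) R
          map_add' := fun R R' => by
            simp only [G, Submodule.coe_add, map_add, add_mul, Matrix.add_apply]
            ring
          map_smul' := fun c R => by
            simp only [G, Submodule.coe_smul, hsm, smul_mul_assoc, Matrix.smul_apply, smul_eq_mul,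
              RingHom.id_apply]
            ring }
      refine ⟨γ, fun R => ?_⟩
      have := aut_lemma μ 1 w e r (tau L J) (fun R => (R.coeff 1 * L) a b a' b') G hG R
      simp only [one_pow, one_mul] at this
      rw [← tauL_coe Ω, it_eq_wp, it_eq_wp] at this
      exact this
  obtain ⟨k, hk⟩ := hnil
  refine ⟨k, fun R hR => ?_⟩
  have h1 : it (tau L J) (w ++ [e]) = wp (tauL Ω L J) (w ++ [e]).reverse := by
    funext R
    rw [← tauL_coe Ω, it_eq_wp]
  rw [h1, ← Module.End.pow_apply]
  rw [Module.End.pow_restrict] at hk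
  have := congrArg Subtype.val (LinearMap.congr_fun hk ⟨R, hR⟩)
  exact this

theorem tau_zero_div {Ω : Type u} [Field Ω] [IsAlgClosed Ω] {D : Type v} [DivisionRing D]
    [Nonempty m] (κ : D →+* Matrix m m Ω)
    (L : Matrix n n D) (J : FA (Matrix n n D) ι)
    (hL : L * J.coeff 1 = 1) (hJ : PtUnit.{u} (Xi ι _ n J)) (δ : ℕ)
    (hδ : ∀ w : FreeMonoid ι, δ < w.length → J.coeff w = 0) (w : List ι)
    (hw : Nat.card (Sh ι δ) * (Fintype.card n * Fintype.card n) ≤ w.length) :
    it (tau L J) w 1 = 0 := by
  set V := supported D (Matrix n n D) (Sh ι δ) with hV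
  have : FiniteDimensional D V := (supportedEquivFinsupp (Sh ι δ)).symm.finiteDimensional
  have hrk : finrank D V = Nat.card (Sh ι δ) * (Fintype.card n * Fintype.card n) := by
    have := Fintype.ofFinite (Sh ι δ)
    rw [(supportedEquivFinsupp (Sh ι δ)).finrank_eq,
      (Finsupp.linearEquivFunOnFinite D (Matrix n n D) (Sh ι δ)).finrank_eq,
      Module.finrank_pi_fintype, Module.finrank_matrix,
      Module.finrank_self, mul_one, Nat.card_eq_fintype_card]
    simp
  rw [← tauL_coe D, it_eq_wp]
  refine levitzki (tauL D L J) V (fun j => tau_mem D L J δ hδ j) ?_ _ (by simpa [hrk] using hw) _ ?_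
  · intro u hu
    obtain ⟨k, hk⟩ := tau_nil_field (κ.mapMatrix L) (mapRingHom _ κ.mapMatrix J)
      (by rw [coeff_mapRingHom, ← map_mul, hL, map_one])
      (by rw [Xi_map]; exact hJ.map _) δ
      (fun w hw => by rw [coeff_mapRingHom, hδ w hw, map_zero]) u.reverse (by simpa using hu)
    refine ⟨k, fun R hR => ?_⟩
    have h1 : (wp (tauL D L J) u : _ → _) = it (tau L J) u.reverse := by
      funext R
      rw [← tauL_coe D, it_eq_wp, List.reverse_reverse]
    rw [Module.End.pow_apply, h1, ← it_replicate]
    have h2 := hk (mapRingHom _ κ.mapMatrix R) (by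
      rw [mem_supported'] at hR ⊢
      intro w hw
      rw [coeff_mapRingHom, hR w hw, map_zero])
    rw [← it_replicate, ← it_tau_map] at h2
    ext w a b
    apply κ.injective
    have := congrArg (fun x => x.coeff w a b) h2
    simpa using this
  · rw [mem_supported']
    intro w hw
    rw [one_def, coeff_single, Finsupp.single_eq_of_ne]
    rintro rfl
    exact hw (Nat.zero_le _)

/-- the coefficient ring is separated by division rings of finite degree -/
def Sep (Λ : Type*) [Ring Λ] : Prop :=
  ∀ x : Λ, x ≠ 0 → ∃ (D : Type u) (_ : DivisionRing D) (Ω : Type u) (_ : Field Ω)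
    (_ : IsAlgClosed Ω) (d : ℕ) (ρ : Λ →+* D)
    (_ : D →+* Matrix (Fin (d + 1)) (Fin (d + 1)) Ω), ρ x ≠ 0

theorem left_inv_step {Λ : Type*} [Ring Λ] (hsep : Sep.{u} Λ) (J0 : Matrix n n (FA Λ ι))
    (hJ : PtUnit.{u} J0) (L : Matrix n n Λ) (hL : L * J0.map (fun x => x.coeff 1) = 1) :
    ∃ P, P * J0 = 1 := by
  obtain ⟨J, rfl⟩ := Xi_surj J0
  have hL' : L * J.coeff 1 = 1 := by
    rw [← hL]
    congr 1
    ext a b
    simp [Xi_coeff]
  obtain ⟨δ, hδ⟩ := exists_bound J
  obtain ⟨P, hP⟩ := left_inv_of_tau hL' (Nat.card (Sh ι δ) * (Fintype.card n * Fintype.card n)) 1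
    (by
      intro w hw
      ext u a b
      by_contra hne
      obtain ⟨D, _, Ω, _, _, d, ρ, κ, hρ⟩ := hsep _ hne
      apply hρ
      have h1 := tau_zero_div κ (ρ.mapMatrix L) (mapRingHom _ ρ.mapMatrix J)
        (by rw [coeff_mapRingHom, ← map_mul, hL', map_one])
        (by rw [Xi_map]; exact hJ.map _) δ
        (fun w hw => by rw [coeff_mapRingHom, hδ w hw, map_zero]) w hw.ge
      have h2 := it_tau_map ρ.mapMatrix L J w 1
      rw [map_one, h1] at h2
      have := congrArg (fun x => x.coeff u a b) h2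
      simpa using this)
  exact ⟨Xi ι Λ n P, by rw [← map_mul, hP, map_one]⟩

end S3

end Pool.Agent.H.MP_54c2ef_al
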