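import Mathlib
import Pool.Agent.H.MP_54c2ef_al.ThmB

set_option maxHeartbeats 400000
set_option linter.unusedSectionVars false

namespace Pool.Agent.H.MP_54c2ef_al

open MonoidAlgebra Module WithZero

universe u

section Cyc

variable {Ω : Type*} [Field Ω] {k : ℕ}

/-- weights of the cyclic matrix -/
def cw {R : Type*} [One R] (z : R) (i : Fin (k + 1)) : R := if i = Fin.last k then z else 1

/-- the twisted cyclic matrices -/
def Dd (σ : Ω →+* Ω) (z : Ω) (k : ℕ) : Subring (Matrix (Fin (k + 1)) (Fin (k + 1)) Ω) where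
  carrier := {M | ∀ i j, cw z i * σ (M (i + 1) (j + 1)) = M i j * cw z j}
  mul_mem' := by
    intro M N hM hN i j
    simp only [Matrix.mul_apply, map_sum, map_mul, Finset.mul_sum, Finset.sum_mul]
    rw [← Equiv.sum_comp (Equiv.addRight (1 : Fin (k + 1)))]
    refine Finset.sum_congr rfl fun l _ => ?_
    simp only [Equiv.coe_addRight]
    rw [← mul_assoc, hM, mul_assoc, hN, mul_assoc]
  one_mem' := by
    intro i j
    by_cases h : i = j
    · subst h; simp
    · rw [Matrix.one_apply_ne h, Matrix.one_apply_ne (by simpa using h)]; simp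
  add_mem' := by
    intro M N hM hN i j
    simp only [Matrix.add_apply, map_add, mul_add, add_mul, hM i j, hN i j]
  zero_mem' := by intro i j; simp
  neg_mem' := by
    intro M hM i j
    simp only [Matrix.neg_apply, map_neg, mul_neg, neg_mul, hM i j]

lemma mem_Dd {σ : Ω →+* Ω} {z : Ω} {M : Matrix (Fin (k + 1)) (Fin (k + 1)) Ω} :
    M ∈ Dd σ z k ↔ ∀ i j, cw z i * σ (M (i + 1) (j + 1)) = M i j * cw z j := Iff.rfl

lemma cyc (P : Fin (k + 1) → Prop) (h : ∀ j, P j → P (j + 1)) (j : Fin (k + 1)) (hj : P j)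
    (j' : Fin (k + 1)) : P j' := by
  have : ∀ t : ℕ, P (j + Fin.ofNat _ t) := by
    intro t
    induction t with
    | zero => simpa using hj
    | succ t ih =>
      have e : Fin.ofNat (k + 1) (t + 1) = Fin.ofNat (k + 1) t + 1 := by
        ext; simp [Fin.val_add]
      rw [e, ← add_assoc]
      exact h _ ih
  have := this (j' - j).val
  rwa [Fin.ofNat_val_eq_self, add_sub_cancel] at this

theorem Dd_inj (σ : Ω →+* Ω) (z : Ω) (v : Valuation Ω ℤᵐ⁰) (hv : ∀ x, x ≠ 0 → v x ≠ 0)
    (hz : v z = exp 1) (hσ : ∀ x, v (σ x) = v x) (M : Matrix (Fin (k + 1)) (Fin (k + 1)) Ω)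
    (hM : M ∈ Dd σ z k) (h0 : M ≠ 0) : IsUnit M := by
  classical
  rw [← Matrix.mulVec_injective_iff_isUnit]
  suffices H : ∀ x, M.mulVec x = 0 → x = 0 by
    intro x y hxy
    rw [← sub_eq_zero]
    apply H
    rw [Matrix.mulVec_sub, hxy, sub_self]
  intro x hx
  by_contra hx0
  have hz0 : z ≠ 0 := by
    rintro rfl
    rw [map_zero] at hz
    exact exp_ne_zero hz.symm
  have hc0 : ∀ i : Fin (k + 1), cw z i ≠ 0 := by
    intro i; unfold cw; split_ifs <;> simp [hz0]
  have hc : ∀ i : Fin (k + 1), (((i + 1 : Fin (k + 1)) : ℕ) : ℤ) =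
      (i : ℕ) + 1 - (k + 1) * log (v (cw z i)) := by
    intro i
    rw [Fin.val_add_one]
    unfold cw
    split_ifs with h
    · simp [h, hz]
    · simp
  let ν : Fin (k + 1) × Fin (k + 1) → ℤ := fun p =>
    (k + 1) * log (v (M p.1 p.2)) + (p.2 : ℕ) - (p.1 : ℕ)
  let μ : Fin (k + 1) → ℤ := fun j => (k + 1) * log (v (x j)) - (j : ℕ)
  obtain ⟨p1, hp1, hmax⟩ := Finset.exists_max_image
    (Finset.univ.filter fun p : Fin (k + 1) × Fin (k + 1) => M p.1 p.2 ≠ 0) ν (by
      by_contra hne
      apply h0
      ext i j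
      by_contra h
      exact hne ⟨(i, j), by simpa using h⟩)
  obtain ⟨j0, hj0, hmax'⟩ := Finset.exists_max_image
    (Finset.univ.filter fun j : Fin (k + 1) => x j ≠ 0) μ (by
      by_contra hne
      apply hx0
      ext j
      by_contra h
      exact hne ⟨j, by simpa using h⟩)
  simp only [Finset.mem_filter, Finset.mem_univ, true_and] at hp1 hmax hj0 hmax'
  obtain ⟨i0, hi0, hν⟩ : ∃ i0, M i0 j0 ≠ 0 ∧ ν (i0, j0) = ν p1 := by
    refine cyc (fun j => ∃ i, M i j ≠ 0 ∧ ν (i, j) = ν p1) ?_ p1.2 ⟨p1.1, hp1, rfl⟩ j0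
    rintro j ⟨i, hi, hν⟩
    have h1 := hM i j
    have h2 : M (i + 1) (j + 1) ≠ 0 := by
      intro h
      rw [h, map_zero, mul_zero] at h1
      exact mul_ne_zero hi (hc0 j) h1.symm
    refine ⟨i + 1, h2, ?_⟩
    have h3 := congrArg (fun y => log (v y)) h1
    simp only [map_mul, hσ] at h3
    rw [log_mul (hv _ (hc0 i)) (hv _ h2), log_mul (hv _ hi) (hv _ (hc0 j))] at h3
    rw [← hν]
    simp only [ν, hc]
    linear_combination (k + 1 : ℤ) * h3
  have h1 : v (∑ j, M i0 j * x j) = v (M i0 j0 * x j0) := by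
    refine v.map_sum_eq_of_lt (Finset.mem_univ j0) fun j hj => ?_
    have hj' : j ≠ j0 := by simpa using hj
    by_cases h : M i0 j * x j = 0
    · rw [h, map_zero]
      exact zero_lt_iff.2 (hv _ (mul_ne_zero hi0 hj0))
    have ha := left_ne_zero_of_mul h
    have hb := right_ne_zero_of_mul h
    rw [← log_lt_log (hv _ h) (hv _ (mul_ne_zero hi0 hj0)), map_mul, map_mul,
      log_mul (hv _ ha) (hv _ hb), log_mul (hv _ hi0) (hv _ hj0)]
    have h2 := hmax (i0, j) ha
    have h3 := hmax' j hb
    rw [← hν] at h2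
    have h4 : μ j ≠ μ j0 := by
      intro h4
      apply hj'
      have h5 : ((j : ℕ) : ℤ) - (j0 : ℕ) = 0 := by
        refine Int.eq_zero_of_abs_lt_dvd (m := (k + 1 : ℤ))
          ⟨log (v (x j)) - log (v (x j0)), ?_⟩ ?_
        · simp only [μ] at h4
          linear_combination -h4
        · have := j.2
          have := j0.2
          rw [abs_lt]
          constructor <;> omega
      ext
      omega
    have h6 := lt_of_le_of_ne h3 h4
    simp only [ν, μ] at h2 h6
    have h7 : (0 : ℤ) < k + 1 := by positivity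
    refine lt_of_mul_lt_mul_left ?_ h7.le
    linarith
  have h2 : ∑ j, M i0 j * x j = 0 := congrFun hx i0
  rw [h2, map_zero] at h1
  exact hv _ (mul_ne_zero hi0 hj0) h1.symm

/-- the cyclic matrix -/
def Cm (z : Ω) (k : ℕ) : Matrix (Fin (k + 1)) (Fin (k + 1)) Ω :=
  Matrix.of fun i j => if j = i + 1 then cw z i else 0

lemma mem_Dd' {σ : Ω →+* Ω} {z : Ω} {M : Matrix (Fin (k + 1)) (Fin (k + 1)) Ω} :
    M ∈ Dd σ z k ↔ Cm z k * σ.mapMatrix M = M * Cm z k := by
  have h1 : ∀ i j, (Cm z k * σ.mapMatrix M) i j = cw z i * σ (M (i + 1) j) := by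
    intro i j
    simp [Cm, Matrix.mul_apply]
  have h2 : ∀ i j, (M * Cm z k) i (j + 1) = M i j * cw z j := by
    intro i j
    simp [Cm, Matrix.mul_apply]
  rw [mem_Dd]
  constructor
  · intro h
    ext i j
    obtain ⟨j, rfl⟩ := (Equiv.addRight (1 : Fin (k + 1))).surjective j
    simp only [Equiv.coe_addRight]
    rw [h1, h2, h]
  · intro h i j
    rw [← h1, ← h2, h]

theorem Dd_unit (σ : Ω →+* Ω) (z : Ω) (v : Valuation Ω ℤᵐ⁰) (hv : ∀ x, x ≠ 0 → v x ≠ 0)
    (hz : v z = exp 1) (hσ : ∀ x, v (σ x) = v x) (M : Dd σ z k) : IsUnit M ∨ M = 0 := by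
  by_cases h0 : M = 0
  · exact Or.inr h0
  left
  obtain ⟨N, h1, h2⟩ := isUnit_iff_exists.1
    (Dd_inj σ z v hv hz hσ M.1 M.2 fun h => h0 (Subtype.ext h))
  have hN : N ∈ Dd σ z k := by
    have h3 := mem_Dd'.1 M.2
    rw [mem_Dd']
    have h4 : σ.mapMatrix M.1 * σ.mapMatrix N = 1 := by
      rw [← map_mul, h1, map_one]
    calc Cm z k * σ.mapMatrix N = N * (M.1 * Cm z k) * σ.mapMatrix N := by
          rw [← mul_assoc, h2, one_mul]
      _ = N * Cm z k := by
          rw [← h3, mul_assoc, mul_assoc, h4, mul_one]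
  exact ⟨⟨M, ⟨_, hN⟩, Subtype.ext h1, Subtype.ext h2⟩, rfl⟩

open Polynomial in
theorem exists_cyc {P : Type u} [CommRing P] [IsDomain P] (sh : P →+* P)
    (hsh : Function.Injective sh) : ∃ (Ω : Type u) (_ : Field Ω) (σ : Ω →+* Ω)
      (v : Valuation Ω ℤᵐ⁰) (e : P[X] →+* Ω), Function.Injective e ∧ (∀ x, x ≠ 0 → v x ≠ 0) ∧
      v (e X) = exp 1 ∧ (∀ x, v (σ x) = v x) ∧ ∀ a, σ (e a) = e (a.map sh) := by
  classical
  obtain ⟨L, _, _, _⟩ : ∃ (L : Type u) (_ : Field L) (_ : Algebra P L), IsFractionRing P L :=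
    ⟨FractionRing P, inferInstance, inferInstance, inferInstance⟩
  let σL : L →+* L := IsFractionRing.lift (g := (algebraMap P L).comp sh)
    ((IsFractionRing.injective P L).comp hsh)
  have hσL : ∀ a, σL (algebraMap P L a) = algebraMap P L (sh a) := fun a =>
    IsFractionRing.lift_algebraMap _ a
  let σ : RatFunc L →+* RatFunc L := IsFractionRing.lift
    (g := (algebraMap L[X] (RatFunc L)).comp (Polynomial.mapRingHom σL))
    ((IsFractionRing.injective L[X] (RatFunc L)).comp (Polynomial.map_injective σL σL.injective))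
  have hσ : ∀ a, σ (algebraMap L[X] _ a) = algebraMap L[X] _ (a.map σL) := fun a =>
    IsFractionRing.lift_algebraMap _ a
  refine ⟨RatFunc L, inferInstance, σ, RatFunc.inftyValuation L,
    (algebraMap L[X] _).comp (Polynomial.mapRingHom (algebraMap P L)),
    (IsFractionRing.injective L[X] _).comp
      (Polynomial.map_injective _ (IsFractionRing.injective P L)),
    fun x hx => by simpa using hx, ?_, ?_, ?_⟩
  · simp only [RingHom.comp_apply, Polynomial.coe_mapRingHom, map_X]
    exact RatFunc.inftyValuation.X L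
  · have h1 : ∀ a, RatFunc.inftyValuation L (σ (algebraMap L[X] _ a)) =
        RatFunc.inftyValuation L (algebraMap L[X] _ a) := by
      intro a
      by_cases ha : a = 0
      · simp [ha]
      rw [hσ]
      simp only [RatFunc.inftyValuation_apply]
      rw [RatFunc.inftyValuation.polynomial _ ha, RatFunc.inftyValuation.polynomial _
        ((Polynomial.map_ne_zero_iff σL.injective).2 ha),
        natDegree_map_eq_of_injective σL.injective]
    intro x
    obtain ⟨a, b, -, rfl⟩ := IsFractionRing.div_surjective (A := L[X]) x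
    rw [map_div₀, map_div₀, map_div₀, h1, h1]
  · intro a
    simp only [RingHom.comp_apply, Polynomial.coe_mapRingHom, hσ, Polynomial.map_map]
    congr 2
    ext1 b
    exact hσL b

end Cyc

section Sep

variable {ι : Type} [Fintype ι] [DecidableEq ι]

lemma it_qd {Λ : Type*} [Ring Λ] (w : List ι) (f : FA Λ ι) (u : FreeMonoid ι) :
    (it qd w f).coeff u = f.coeff (FreeMonoid.ofList w * u) := by
  induction w generalizing f with
  | nil => simp
  | cons j w ih => rw [it_cons, ih, qd_coeff, FreeMonoid.ofList_cons, mul_assoc]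

lemma pth_sep {K S : Type*} [CommRing K] [CommRing S] (g : K →+* S) (w : List ι)
    (ev : FA K ι →+* Matrix (Fin (w.length + 1)) (Fin (w.length + 1)) S)
    (h1 : ∀ c, ev (single 1 c) = Matrix.scalar _ (g c))
    (h2 : ∀ j, ev (single (FreeMonoid.of j) 1) = pth S w j) (f : FA K ι) :
    ev f 0 (Fin.last _) = g (f.coeff (FreeMonoid.ofList w)) := by
  have := tail_lemma w (1 : S) qd (fun f : FA K ι => g (f.coeff 1))
    (fun p f => ev f p (Fin.last _)) (by
      intro p f
      conv_lhs => rw [decomp f]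
      simp only [map_add, map_sum, map_mul, h1, h2, Matrix.add_apply, Matrix.sum_apply,
        Matrix.mul_apply, one_mul, Matrix.scalar_apply, Matrix.diagonal_apply]) w.length 0
    (by simp) f
  simpa [it_qd] using this

theorem sep_field (K : Type u) [Field K] : Sep.{u} K := by
  intro x hx
  exact ⟨K, inferInstance, AlgebraicClosure K, inferInstance, inferInstance, 0, RingHom.id K,
    (Matrix.scalar _).comp (algebraMap _ _), hx⟩

open Polynomial in
theorem sep_free (K : Type u) [Field K] : Sep.{u} (FA K ι) := by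
  classical
  intro f hf
  obtain ⟨w, hw⟩ : ∃ w : List ι, f.coeff (FreeMonoid.ofList w) ≠ 0 := by
    by_contra h
    push Not at h
    apply hf
    ext w
    exact h (FreeMonoid.toList w)
  obtain ⟨Ω, _, σ, v, e, he, hv, hz, hσv, hσe⟩ := exists_cyc
    (MvPolynomial.rename (R := K) fun p : ι × Fin (w.length + 1) => (p.1, p.2 - 1)).toRingHom (by
      refine MvPolynomial.rename_injective _ ?_
      rintro ⟨a, b⟩ ⟨a', b'⟩ h
      simpa using h)
  let Y : ι → Matrix (Fin (w.length + 1)) (Fin (w.length + 1)) (MvPolynomial (ι × Fin (w.length + 1)) K)[X] := fun j =>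
    Matrix.of fun p q => if q = p + 1 then C (MvPolynomial.X (j, p)) * cw X p else 0
  let ρP : FA K ι →+* Matrix (Fin (w.length + 1)) (Fin (w.length + 1)) (MvPolynomial (ι × Fin (w.length + 1)) K)[X] :=
    evF ((Matrix.scalar _).comp (C.comp MvPolynomial.C)) Y fun x j =>
      Matrix.scalar_commute _ (fun _ => Commute.all _ _) _
  have hecw : ∀ i : Fin (w.length + 1), e (cw X i) = cw (e X) i := by
    intro i; unfold cw; split_ifs <;> simp
  have hshcw : ∀ i : Fin (w.length + 1), (cw X i : (MvPolynomial (ι × Fin (w.length + 1)) K)[X]).map (MvPolynomial.rename (R := K)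
      fun p : ι × Fin (w.length + 1) => (p.1, p.2 - 1)).toRingHom = cw X i := by
    intro i; unfold cw; split_ifs <;> simp
  have hmem : ∀ g, (e.mapMatrix.comp ρP) g ∈ Dd σ (e X) w.length := by
    intro g
    induction g using MonoidAlgebra.induction_linear with
    | zero => rw [map_zero]; exact zero_mem _
    | add x y hx hy => rw [map_add]; exact add_mem hx hy
    | single m c =>
      induction m using FreeMonoid.inductionOn' with
      | one =>
        intro i j
        simp only [RingHom.comp_apply, ρP, evF_one, RingHom.mapMatrix_apply, Matrix.map_apply,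
          Matrix.scalar_apply, Matrix.diagonal_apply, add_left_inj]
        split_ifs with h
        · rw [hσe, h, mul_comm]
          simp
        · simp
      | of_mul j m ih =>
        have : (single (FreeMonoid.of j * m) c : FA K ι) =
            single (FreeMonoid.of j) 1 * single m c := by simp [single_mul_single]
        rw [this, map_mul]
        refine mul_mem ?_ ih
        intro p q
        simp only [RingHom.comp_apply, ρP, evF_of, RingHom.mapMatrix_apply, Matrix.map_apply, Y,
          Matrix.of_apply, add_left_inj]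
        split_ifs with h
        · rw [hσe, h, Polynomial.map_mul, hshcw, map_C, map_mul, map_mul, hecw, hecw]
          simp only [AlgHom.toRingHom_eq_coe, RingHom.coe_coe, MvPolynomial.rename_X,
            add_sub_cancel_right]
          ring
        · simp
  let : DivisionRing (Dd σ (e X) w.length) :=
    DivisionRing.ofIsUnitOrEqZero (Dd_unit σ (e X) v hv hz hσv)
  refine ⟨Dd σ (e X) w.length, inferInstance, AlgebraicClosure Ω, inferInstance, inferInstance, w.length,
    (e.mapMatrix.comp ρP).codRestrict _ hmem,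
    (algebraMap Ω (AlgebraicClosure Ω)).mapMatrix.comp (Dd σ (e X) w.length).subtype, fun h => hw ?_⟩
  have h1 : ρP f = 0 := by
    ext1 p q
    apply he
    have := congrArg (fun M : Dd σ (e X) w.length => M.1 p q) h
    simpa using this
  let s : (MvPolynomial (ι × Fin (w.length + 1)) K)[X] →+* K := eval₂RingHom
    (MvPolynomial.eval fun p : ι × Fin (w.length + 1) => if w[(p.2 : ℕ)]? = some p.1 then 1 else 0) 0
  have := pth_sep (RingHom.id K) w (s.mapMatrix.comp ρP) (by
      intro c
      ext p q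
      simp only [RingHom.comp_apply, ρP, evF_one, RingHom.mapMatrix_apply, Matrix.map_apply,
        Matrix.scalar_apply, Matrix.diagonal_apply]
      split_ifs <;> simp [s])
    (by
      intro j
      ext p q
      simp only [RingHom.comp_apply, ρP, evF_of, RingHom.mapMatrix_apply, Matrix.map_apply, Y,
        Matrix.of_apply, pth]
      by_cases hp : p = Fin.last _
      · have : ¬ ((q : ℕ) = p + 1) := by
          have := q.2
          rw [hp, Fin.val_last]
          omega
        simp only [this, false_and, if_false]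
        split_ifs <;> simp [s, cw, hp]
      · have : q = p + 1 ↔ (q : ℕ) = p + 1 := by
          rw [Fin.ext_iff, Fin.val_add_one, if_neg hp]
        simp only [this]
        by_cases hq : (q : ℕ) = p + 1 <;> simp [s, cw, hp, hq]) f
  rw [RingHom.comp_apply, h1, map_zero] at this
  exact this.symm

variable {n : Type} [Fintype n] [DecidableEq n]

/-- the constant term -/
noncomputable def cst (Λ : Type*) [Ring Λ] (ι : Type*) [Fintype ι] [DecidableEq ι] :
    FA Λ ι →+* Λ := evF (RingHom.id Λ) (fun _ => 0) fun _ _ => Commute.zero_right _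

lemma cst_apply {Λ : Type*} [Ring Λ] (f : FA Λ ι) : cst Λ ι f = f.coeff 1 := by
  conv_lhs => rw [decomp f]
  simp only [map_add, map_sum, map_mul, cst, evF_one, evF_of]
  simp

theorem left_inv_one {K : Type u} [Field K] (J : Matrix n n (FA K ι)) (hJ : PtUnit.{u} J) :
    ∃ P, P * J = 1 := by
  have h1 := (hJ K Unit ((Matrix.uniqueRingEquiv (m := Unit) (A := K)).symm.toRingHom.comp
    (cst K ι))).map (Matrix.uniqueRingEquiv (m := Unit) (A := K)).toRingHom.mapMatrix
  obtain ⟨L, hL⟩ := h1.exists_left_inv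
  refine left_inv_step (sep_field K) J hJ L ?_
  rw [← hL]
  congr 1
  ext a b
  simp [cst_apply]

theorem left_inv_two {K : Type u} [Field K] (J : Matrix n n (FA (FA K ι) ι)) (hJ : PtUnit.{u} J) :
    ∃ P, P * J = 1 := by
  obtain ⟨L, hL⟩ := left_inv_one _ (hJ.map (cst (FA K ι) ι))
  refine left_inv_step (sep_free K) J hJ L ?_
  rw [← hL]
  congr 1
  ext1 a b
  simp [cst_apply]

theorem unit_two {K : Type u} [Field K] (J : Matrix n n (FA (FA K ι) ι)) (hJ : PtUnit.{u} J) :
    IsUnit J := by
  obtain ⟨P, hP⟩ := left_inv_two J hJ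
  obtain ⟨P', hP'⟩ := left_inv_two P (hJ.of_left_inv hP)
  have : P' = J := by rw [← mul_one P', ← hP, ← mul_assoc, hP', one_mul]
  subst this
  exact ⟨⟨P', P, hP', hP⟩, rfl⟩

end Sep

end Pool.Agent.H.MP_54c2ef_al
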