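import Mathlib

set_option maxHeartbeats 400000
set_option linter.unusedSectionVars false

namespace Pool.Agent.H.MP_54c2ef_al

open Polynomial

theorem step1 {E S ι k : Type*} [Ring E] [CommRing S] [IsDomain S] [Fintype ι] [DecidableEq ι]
    [Fintype k] [DecidableEq k] (h : E →+* E[X]) (hev : ∀ a, (h a).eval 1 = a)
    (J U U' : Matrix ι ι E) (hU : U' * U = 1) (N m : ℕ) (hN : ∀ i j, (h (J i j)).natDegree ≤ N)
    (hm : Fintype.card (ι × k) * N < m) (hJU : ∀ i j, X ^ m ∣ h (J i j) - h (U i j))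
    (π : E →+* Matrix k k S) : IsUnit (π.mapMatrix J) := by
  let θ : E →+* Matrix k k S[X] :=
    ((matPolyEquiv (n := k) (R := S)).symm.toRingEquiv.toRingHom.comp (mapRingHom π)).comp h
  have hθ : ∀ a p q n, (θ a p q).coeff n = π ((h a).coeff n) p q := by
    intro a p q n
    simp only [θ, RingHom.comp_apply, coe_mapRingHom]
    erw [matPolyEquiv_symm_apply_coeff]
    rw [coeff_map]
  have hθ1 : ∀ a p q, (θ a p q).eval 1 = π a p q := by
    intro a p q
    have := congrFun (congrFun (matPolyEquiv_symm_map_eval ((h a).map π) (1 : S)) p) q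
    rw [map_one, eval_one_map, hev] at this
    exact this
  let Θ : Matrix ι ι E →+* Matrix (ι × k) (ι × k) S[X] :=
    (Matrix.compRingEquiv ι k S[X]).toRingHom.comp θ.mapMatrix
  have hΘ : ∀ M a b, Θ M a b = θ (M a.1 b.1) a.2 b.2 := fun M a b => rfl
  have hu : IsUnit (Θ U).det := by
    refine Matrix.isUnit_det_of_left_inverse (B := Θ U') ?_
    rw [← map_mul, hU, map_one]
  obtain ⟨u, hu1, hu2⟩ := Polynomial.isUnit_iff.1 hu
  have hdvd : X ^ m ∣ (Θ J).det - (Θ U).det := by
    rw [← Ideal.mem_span_singleton, ← Ideal.Quotient.eq, RingHom.map_det, RingHom.map_det]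
    congr 1
    ext a b
    simp only [RingHom.mapMatrix_apply, Matrix.map_apply]
    rw [Ideal.Quotient.eq, Ideal.mem_span_singleton, X_pow_dvd_iff]
    intro d hd
    rw [coeff_sub, hΘ, hΘ, hθ, hθ, ← Matrix.sub_apply, ← map_sub, ← coeff_sub,
      (X_pow_dvd_iff.1 (hJU _ _)) d hd, map_zero, Matrix.zero_apply]
  have hdeg : (Θ J).det.natDegree ≤ Fintype.card (ι × k) * N := by
    rw [Matrix.det_apply]
    refine natDegree_sum_le_of_forall_le _ _ fun σ _ => ?_
    refine (natDegree_smul_le _ _).trans ((natDegree_prod_le _ _).trans ?_)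
    refine (Finset.sum_le_card_nsmul _ _ N fun a _ => ?_).trans (by simp)
    rw [natDegree_le_iff_coeff_eq_zero]
    intro d hd
    rw [hΘ, hθ, coeff_eq_zero_of_natDegree_lt (lt_of_le_of_lt (hN _ _) hd), map_zero,
      Matrix.zero_apply]
  have h0 : (Θ J).det - (Θ U).det = 0 := by
    refine eq_zero_of_dvd_of_natDegree_lt hdvd ?_
    rw [← hu2, natDegree_sub_C, natDegree_X_pow]
    omega
  have h1 : ((evalRingHom (1 : S)).mapMatrix (Θ J)).det = u := by
    rw [← RingHom.map_det, sub_eq_zero.1 h0, ← hu2]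
    simp
  have h2 : (evalRingHom (1 : S)).mapMatrix (Θ J) =
      Matrix.compRingEquiv ι k S (π.mapMatrix J) := by
    ext a b
    simp only [RingHom.mapMatrix_apply, Matrix.map_apply, coe_evalRingHom]
    rw [hΘ, hθ1]
    rfl
  have h3 : IsUnit (Matrix.compRingEquiv ι k S (π.mapMatrix J)) := by
    rw [Matrix.isUnit_iff_isUnit_det, ← h2, h1]
    exact hu1
  simpa using h3.map (Matrix.compRingEquiv ι k S).symm

end Pool.Agent.H.MP_54c2ef_al
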