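import Mathlib
import Pool.Agent.H.MP_54c2ef_al.Div
import Pool.Agent.H.MP_54c2ef_al.Step1

set_option maxHeartbeats 400000
set_option linter.unusedSectionVars false

namespace Pool.Agent.H.MP_54c2ef_al

open MulOpposite TensorProduct Polynomial

universe u

variable {K : Type u} [Field K] {ι : Type} [Fintype ι] [DecidableEq ι]

/-- enveloping algebra -/
abbrev EE (K : Type u) [Field K] (ι : Type) := FreeAlgebra K ι ⊗[K] (FreeAlgebra K ι)ᵐᵒᵖ

/-- left embedding -/
noncomputable def lE : FreeAlgebra K ι →ₐ[K] EE K ι := Algebra.TensorProduct.includeLeft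

/-- right embedding -/
noncomputable def rE : FreeAlgebra K ι →ₗ[K] EE K ι :=
  (Algebra.TensorProduct.includeRight (R := K) (A := FreeAlgebra K ι)
    (B := (FreeAlgebra K ι)ᵐᵒᵖ)).toLinearMap ∘ₗ (opLinearEquiv K).toLinearMap

lemma lE_apply (a : FreeAlgebra K ι) : lE a = a ⊗ₜ[K] (1 : (FreeAlgebra K ι)ᵐᵒᵖ) := rfl
lemma rE_apply (a : FreeAlgebra K ι) : rE a = (1 : FreeAlgebra K ι) ⊗ₜ[K] op a := rfl

lemma rE_mul (a b : FreeAlgebra K ι) : rE (a * b) = rE b * rE a := by
  simp [rE_apply]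

lemma rE_one : rE (1 : FreeAlgebra K ι) = 1 := rfl

lemma rE_alg (c : K) : rE (algebraMap K (FreeAlgebra K ι) c) = algebraMap K _ c := by
  rw [Algebra.algebraMap_eq_smul_one, map_smul, rE_one, Algebra.algebraMap_eq_smul_one]

lemma lE_rE (a b : FreeAlgebra K ι) : lE a * rE b = a ⊗ₜ[K] op b := by
  simp [lE_apply, rE_apply]

lemma lr_comm (a b : FreeAlgebra K ι) : lE a * rE b = rE b * lE a := by
  simp [lE_apply, rE_apply]

theorem EE_ind {P : EE K ι → Prop} (h0 : ∀ c, P (algebraMap K _ c))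
    (hl : ∀ j, P (lE (FreeAlgebra.ι K j))) (hr : ∀ j, P (rE (FreeAlgebra.ι K j)))
    (hm : ∀ a b, P a → P b → P (a * b)) (ha : ∀ a b, P a → P b → P (a + b)) (e : EE K ι) :
    P e := by
  have h1 : ∀ a, P (lE a) := by
    intro a
    induction a using FreeAlgebra.induction with
    | grade0 c => rw [AlgHom.commutes]; exact h0 c
    | grade1 j => exact hl j
    | mul a b iha ihb => rw [map_mul]; exact hm _ _ iha ihb
    | add a b iha ihb => rw [map_add]; exact ha _ _ iha ihb
  have h2 : ∀ a, P (rE a) := by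
    intro a
    induction a using FreeAlgebra.induction with
    | grade0 c => rw [rE_alg]; exact h0 c
    | grade1 j => exact hr j
    | mul a b iha ihb => rw [rE_mul]; exact hm _ _ ihb iha
    | add a b iha ihb => rw [map_add]; exact ha _ _ iha ihb
  induction e using TensorProduct.induction_on with
  | zero => simpa using h0 0
  | tmul a b =>
    have := hm _ _ (h1 a) (h2 (unop b))
    rwa [lE_rE] at this
  | add a b iha ihb => exact ha _ _ iha ihb

section Lift2

variable {B : Type*} [Ring B] [Algebra K B]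

lemma comm_free (x : B) (u : ι → B) (h : ∀ j, Commute x (u j)) (a : FreeAlgebra K ι) :
    Commute x (FreeAlgebra.lift K u a) := by
  induction a using FreeAlgebra.induction with
  | grade0 c => rw [AlgHom.commutes]; exact (Algebra.commutes c x).symm
  | grade1 j => rw [FreeAlgebra.lift_ι_apply]; exact h j
  | mul a b iha ihb => rw [map_mul]; exact iha.mul_right ihb
  | add a b iha ihb => rw [map_add]; exact iha.add_right ihb

/-- algebra maps out of the enveloping algebra -/
noncomputable def lift2 (u v : ι → B) (h : ∀ i j, Commute (u i) (v j)) : EE K ι →ₐ[K] B :=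
  Algebra.TensorProduct.lift (FreeAlgebra.lift K u)
    (AlgHom.opComm (FreeAlgebra.lift K fun j => op (v j))) fun x y => by
      refine (comm_free _ u (fun i => ?_) x).symm
      exact (comm_free (op (u i)) (fun j => op (v j)) (fun j => (h i j).op) (unop y)).unop.symm

lemma lift2_l (u v : ι → B) (h : ∀ i j, Commute (u i) (v j)) (a : FreeAlgebra K ι) :
    lift2 u v h (lE a) = FreeAlgebra.lift K u a := by
  simp [lift2, lE_apply]

lemma lift2_r (u v : ι → B) (h : ∀ i j, Commute (u i) (v j)) (a : FreeAlgebra K ι) :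
    lift2 u v h (rE a) = unop (FreeAlgebra.lift K (fun j => op (v j)) a) := by
  simp [lift2, rE_apply]

lemma lift2_lx (u v : ι → B) (h : ∀ i j, Commute (u i) (v j)) (j : ι) :
    lift2 u v h (lE (FreeAlgebra.ι K j)) = u j := by
  simp [lift2_l]

lemma lift2_rx (u v : ι → B) (h : ∀ i j, Commute (u i) (v j)) (j : ι) :
    lift2 u v h (rE (FreeAlgebra.ι K j)) = v j := by
  simp [lift2_r]

end Lift2

/-- representation producing the free derivative -/
noncomputable def rho (i : ι) :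
    FreeAlgebra K ι →ₐ[K] Module.End K (EE K ι × FreeAlgebra K ι) :=
  FreeAlgebra.lift K fun k =>
    { toFun := fun p => (lE (FreeAlgebra.ι K k) * p.1 + (if k = i then 1 else 0) * rE p.2,
        FreeAlgebra.ι K k * p.2)
      map_add' := fun p q => by
        simp only [Prod.fst_add, Prod.snd_add, mul_add, map_add, Prod.mk_add_mk]
        congr 1
        abel
      map_smul' := fun c p => by
        simp only [Prod.smul_fst, Prod.smul_snd, mul_smul_comm, map_smul, RingHom.id_apply,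
          Prod.smul_mk, smul_add] }

/-- the free derivative -/
noncomputable def dd (i : ι) : FreeAlgebra K ι →ₗ[K] EE K ι where
  toFun a := (rho i a (0, 1)).1
  map_add' a b := by simp
  map_smul' c a := by simp

lemma dd_alg (i : ι) (c : K) : dd i (algebraMap K (FreeAlgebra K ι) c) = 0 := by
  simp [dd]

lemma dd_x (i k : ι) : dd i (FreeAlgebra.ι K k) = if k = i then 1 else 0 := by
  simp [dd, rho, rE_one]

lemma rho_apply (i : ι) (a : FreeAlgebra K ι) :
    ∀ z b, rho i a (z, b) = (lE a * z + rE b * dd i a, a * b) := by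
  induction a using FreeAlgebra.induction with
  | grade0 c =>
    intro z b
    rw [AlgHom.commutes, AlgHom.commutes, dd_alg, mul_zero, add_zero, ← Algebra.smul_def,
      ← Algebra.smul_def]
    rfl
  | grade1 j =>
    intro z b
    rw [dd_x]
    simp only [rho, FreeAlgebra.lift_ι_apply, LinearMap.coe_mk, AddHom.coe_mk]
    split_ifs <;> simp
  | mul a a' iha iha' =>
    intro z b
    have h1 : dd i (a * a') = lE a * dd i a' + rE a' * dd i a := by
      change (rho i (a * a') (0, 1)).1 = _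
      rw [map_mul, Module.End.mul_apply, iha', iha]
      simp [rE_one]
    rw [map_mul, Module.End.mul_apply, iha', iha, h1, map_mul lE, rE_mul, mul_add, mul_add,
      ← mul_assoc (lE a) (rE b), lr_comm]
    simp only [mul_assoc, add_assoc]
  | add a a' iha iha' =>
    intro z b
    rw [map_add, LinearMap.add_apply, iha, iha']
    simp only [map_add, add_mul, mul_add, Prod.mk_add_mk]
    congr 1
    abel

lemma dd_mul (i : ι) (a b : FreeAlgebra K ι) :
    dd i (a * b) = lE a * dd i b + rE b * dd i a := by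
  change (rho i (a * b) (0, 1)).1 = _
  rw [map_mul, Module.End.mul_apply, rho_apply, rho_apply]
  simp [rE_one]

lemma DD_eq (f : FreeAlgebra K ι) : lE f - rE f =
    ∑ i, dd i f * (lE (FreeAlgebra.ι K i) - rE (FreeAlgebra.ι K i)) := by
  induction f using FreeAlgebra.induction with
  | grade0 c => simp [dd_alg, rE_alg]
  | grade1 j => simp [dd_x]
  | mul a b iha ihb =>
    simp only [dd_mul, add_mul, Finset.sum_add_distrib, mul_assoc, ← Finset.mul_sum]
    rw [← iha, ← ihb, map_mul, rE_mul, mul_sub, mul_sub, lr_comm]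
    abel
  | add a b iha ihb =>
    simp only [map_add, add_mul, Finset.sum_add_distrib]
    rw [← iha, ← ihb]
    abel

/-- action of an endomorphism on the enveloping algebra -/
noncomputable def Ph (φ : FreeAlgebra K ι →ₐ[K] FreeAlgebra K ι) : EE K ι →ₐ[K] EE K ι :=
  Algebra.TensorProduct.map φ (AlgHom.op φ)

lemma Ph_l (φ : FreeAlgebra K ι →ₐ[K] FreeAlgebra K ι) (a) : Ph φ (lE a) = lE (φ a) := by
  simp [Ph, lE_apply]

lemma Ph_r (φ : FreeAlgebra K ι →ₐ[K] FreeAlgebra K ι) (a) : Ph φ (rE a) = rE (φ a) := by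
  simp [Ph, rE_apply]

lemma chain (φ : FreeAlgebra K ι →ₐ[K] FreeAlgebra K ι) (i : ι) (f : FreeAlgebra K ι) :
    dd i (φ f) = ∑ j, Ph φ (dd j f) * dd i (φ (FreeAlgebra.ι K j)) := by
  induction f using FreeAlgebra.induction with
  | grade0 c => simp [dd_alg]
  | grade1 j => simp [dd_x, apply_ite (Ph φ)]
  | mul a b iha ihb =>
    simp only [map_mul, dd_mul, map_add, Ph_l, Ph_r, add_mul, Finset.sum_add_distrib, mul_assoc,
      ← Finset.mul_sum]
    rw [← iha, ← ihb]
  | add a b iha ihb =>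
    simp only [map_add, add_mul, Finset.sum_add_distrib]
    rw [← iha, ← ihb]

/-- the free Jacobian matrix -/
noncomputable def Jac (φ : FreeAlgebra K ι →ₐ[K] FreeAlgebra K ι) : Matrix ι ι (EE K ι) :=
  Matrix.of fun k i => dd i (φ (FreeAlgebra.ι K k))

lemma Jac_comp (φ ψ : FreeAlgebra K ι →ₐ[K] FreeAlgebra K ι) :
    Jac (φ.comp ψ) = (Ph φ).toRingHom.mapMatrix (Jac ψ) * Jac φ := by
  ext1 k i
  simp only [Jac, Matrix.of_apply, AlgHom.comp_apply, Matrix.mul_apply]
  rw [chain]
  rfl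

lemma Jac_id : Jac (AlgHom.id K (FreeAlgebra K ι)) = 1 := by
  ext1 k i
  simp [Jac, dd_x, Matrix.one_apply]

lemma Jac_left_inv (θ : FreeAlgebra K ι ≃ₐ[K] FreeAlgebra K ι) :
    ∃ U', U' * Jac θ.toAlgHom = 1 :=
  ⟨_, by rw [← Jac_comp _ θ.symm.toAlgHom, ← Jac_id]; congr 1; ext1; ext j; simp⟩

/-- translation -/
noncomputable def tr (c : ι → K) : FreeAlgebra K ι →ₐ[K] FreeAlgebra K ι :=
  FreeAlgebra.lift K fun j => FreeAlgebra.ι K j + algebraMap K _ (c j)

lemma tr_x (c : ι → K) (j : ι) :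
    tr c (FreeAlgebra.ι K j) = FreeAlgebra.ι K j + algebraMap K _ (c j) := by simp [tr]

lemma Jac_tr (c : ι → K) : Jac (tr c) = 1 := by
  ext1 k i
  simp [Jac, tr_x, dd_x, dd_alg, Matrix.one_apply]

lemma Ph_tr (c : ι → K) (e : EE K ι) : Ph (tr (-c)) (Ph (tr c) e) = e := by
  induction e using EE_ind with
  | h0 c => simp only [AlgHom.commutes]
  | hl j => rw [Ph_l, Ph_l]; simp [tr_x]
  | hr j => rw [Ph_r, Ph_r]; simp [tr_x]
  | hm a b iha ihb => rw [map_mul, map_mul, iha, ihb]
  | ha a b iha ihb => rw [map_add, map_add, iha, ihb]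

/-- homogenisation -/
noncomputable def hg (K : Type u) [Field K] (ι : Type) [Fintype ι] [DecidableEq ι] :
    EE K ι →ₐ[K] (EE K ι)[X] :=
  lift2 (fun j => X * C (lE (FreeAlgebra.ι K j))) (fun j => X * C (rE (FreeAlgebra.ι K j)))
    fun i j => by
      refine Commute.mul_left (commute_X _) (Commute.mul_right (commute_X _).symm ?_)
      exact Commute.map (lr_comm _ _) C

lemma hg_lx (j : ι) : hg K ι (lE (FreeAlgebra.ι K j)) = X * C (lE (FreeAlgebra.ι K j)) :=
  lift2_lx _ _ _ _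

lemma hg_rx (j : ι) : hg K ι (rE (FreeAlgebra.ι K j)) = X * C (rE (FreeAlgebra.ι K j)) :=
  lift2_rx _ _ _ _

lemma hg_eval (e : EE K ι) : (hg K ι e).eval 1 = e := by
  let ev : (EE K ι)[X] →+* EE K ι := eval₂RingHom' (RingHom.id _) 1 fun a => Commute.one_right _
  have hev : ∀ p, ev p = p.eval 1 := fun p => rfl
  rw [← hev]
  induction e using EE_ind with
  | h0 c => rw [AlgHom.commutes, hev, Polynomial.algebraMap_apply, eval_C]
  | hl j => rw [hg_lx, map_mul, hev, hev, eval_X, eval_C, one_mul]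
  | hr j => rw [hg_rx, map_mul, hev, hev, eval_X, eval_C, one_mul]
  | hm a b iha ihb => rw [map_mul, map_mul, iha, ihb]
  | ha a b iha ihb => rw [map_add, map_add, iha, ihb]

lemma hg_deg (e : EE K ι) : ∃ N, ∀ c : ι → K, (hg K ι (Ph (tr c) e)).natDegree ≤ N := by
  induction e using EE_ind with
  | h0 c => exact ⟨0, fun _ => by simp only [AlgHom.commutes, Polynomial.algebraMap_apply,
      natDegree_C, le_refl]⟩
  | hl j =>
    refine ⟨1, fun c => ?_⟩
    rw [Ph_l, tr_x, map_add, map_add, hg_lx, AlgHom.commutes, AlgHom.commutes,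
      Polynomial.algebraMap_apply, natDegree_add_C]
    exact natDegree_mul_le.trans (by simp)
  | hr j =>
    refine ⟨1, fun c => ?_⟩
    rw [Ph_r, tr_x, map_add, map_add, hg_rx, rE_alg, AlgHom.commutes,
      Polynomial.algebraMap_apply, natDegree_add_C]
    exact natDegree_mul_le.trans (by simp)
  | hm a b iha ihb =>
    obtain ⟨N, hN⟩ := iha
    obtain ⟨N', hN'⟩ := ihb
    refine ⟨N + N', fun c => ?_⟩
    rw [map_mul, map_mul]
    exact natDegree_mul_le.trans (add_le_add (hN c) (hN' c))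
  | ha a b iha ihb =>
    obtain ⟨N, hN⟩ := iha
    obtain ⟨N', hN'⟩ := ihb
    refine ⟨max N N', fun c => ?_⟩
    rw [map_add, map_add]
    exact (natDegree_add_le _ _).trans (max_le_max (hN c) (hN' c))

/-- vanishing to order `m` -/
def Pm (m : ℕ) (f : FreeAlgebra K ι) : Prop :=
  X ^ m ∣ hg K ι (lE f) ∧ X ^ m ∣ hg K ι (rE f) ∧ ∀ i, X ^ m ∣ X * hg K ι (dd i f)

lemma Xdvd_mul {E : Type*} [Ring E] {a b : ℕ} {p q : E[X]} (hp : X ^ a ∣ p) (hq : X ^ b ∣ q) :
    X ^ (a + b) ∣ p * q := by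
  obtain ⟨p, rfl⟩ := hp
  obtain ⟨q, rfl⟩ := hq
  refine ⟨p * q, ?_⟩
  rw [pow_add, mul_assoc, mul_assoc, ← mul_assoc p, ← (commute_X_pow p b).eq, mul_assoc]

lemma Pm_zero (f : FreeAlgebra K ι) : Pm 0 f := by simp [Pm]

lemma Pm.add {m : ℕ} {f g : FreeAlgebra K ι} (hf : Pm m f) (hg : Pm m g) : Pm m (f + g) := by
  refine ⟨?_, ?_, fun i => ?_⟩
  · rw [map_add, map_add]; exact dvd_add hf.1 hg.1
  · rw [map_add, map_add]; exact dvd_add hf.2.1 hg.2.1
  · rw [map_add, map_add, mul_add]; exact dvd_add (hf.2.2 i) (hg.2.2 i)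

lemma Pm.mul {a b : ℕ} {f g : FreeAlgebra K ι} (hf : Pm a f) (hg' : Pm b g) :
    Pm (a + b) (f * g) := by
  refine ⟨?_, ?_, fun i => ?_⟩
  · rw [map_mul, map_mul]; exact Xdvd_mul hf.1 hg'.1
  · rw [rE_mul, map_mul, add_comm]; exact Xdvd_mul hg'.2.1 hf.2.1
  · rw [dd_mul, map_add, map_mul, map_mul, mul_add, ← mul_assoc, ← mul_assoc, X_mul, X_mul,
      mul_assoc, mul_assoc]
    refine dvd_add (Xdvd_mul hf.1 (hg'.2.2 i)) ?_
    rw [add_comm]
    exact Xdvd_mul hg'.2.1 (hf.2.2 i)

lemma Pm.mono {a b : ℕ} {f : FreeAlgebra K ι} (hf : Pm a f) (h : b ≤ a) : Pm b f :=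
  ⟨(pow_dvd_pow _ h).trans hf.1, (pow_dvd_pow _ h).trans hf.2.1,
    fun i => (pow_dvd_pow _ h).trans (hf.2.2 i)⟩

lemma Pm_null (m : ℕ) : Pm m (0 : FreeAlgebra K ι) := by simp [Pm]

lemma Pm.mul_left {m : ℕ} {g : FreeAlgebra K ι} (f : FreeAlgebra K ι) (hg : Pm m g) :
    Pm m (f * g) := by simpa using (Pm_zero f).mul hg

lemma Pm.mul_right {m : ℕ} {f : FreeAlgebra K ι} (hf : Pm m f) (g : FreeAlgebra K ι) :
    Pm m (f * g) := by simpa using hf.mul (Pm_zero g)

lemma Pm_of_gen {m : ℕ} (ψ χ : FreeAlgebra K ι →ₐ[K] FreeAlgebra K ι)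
    (h : ∀ i, Pm m (ψ (FreeAlgebra.ι K i) - χ (FreeAlgebra.ι K i))) (f : FreeAlgebra K ι) :
    Pm m (ψ f - χ f) := by
  induction f using FreeAlgebra.induction with
  | grade0 c => simpa using Pm_null m
  | grade1 j => exact h j
  | mul a b iha ihb =>
    have : ψ (a * b) - χ (a * b) = ψ a * (ψ b - χ b) + (ψ a - χ a) * χ b := by
      rw [map_mul, map_mul]; noncomm_ring
    rw [this]
    exact (ihb.mul_left _).add (iha.mul_right _)
  | add a b iha ihb =>
    have : ψ (a + b) - χ (a + b) = (ψ a - χ a) + (ψ b - χ b) := by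
      rw [map_add, map_add]; abel
    rw [this]
    exact iha.add ihb

lemma Pm_one {f : FreeAlgebra K ι} (h : FreeAlgebra.algebraMapInv f = 0) : Pm 1 f := by
  have := Pm_of_gen (m := 1) (AlgHom.id K (FreeAlgebra K ι))
    ((Algebra.ofId K _).comp FreeAlgebra.algebraMapInv) (fun i => by
      simp only [AlgHom.coe_id, id_eq, AlgHom.comp_apply, FreeAlgebra.algebraMapInv,
        FreeAlgebra.lift_ι_apply, Pi.zero_apply, map_zero, sub_zero]
      refine ⟨?_, ?_, fun j => ?_⟩
      · rw [hg_lx, pow_one]; exact dvd_mul_right _ _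
      · rw [hg_rx, pow_one]; exact dvd_mul_right _ _
      · rw [pow_one]; exact dvd_mul_right _ _) f
  simpa [h] using this

lemma Pm_span (θ : FreeAlgebra K ι →ₐ[K] FreeAlgebra K ι)
    (hθ : ∀ j, FreeAlgebra.algebraMapInv (θ (FreeAlgebra.ι K j)) = 0) (m : ℕ) (f : FreeAlgebra K ι)
    (hf : f ∈ Submodule.span K
      {a | ∃ l : List ι, m ≤ l.length ∧ a = (l.map (FreeAlgebra.ι K)).prod}) : Pm m (θ f) := by
  induction hf using Submodule.span_induction with
  | mem a ha =>
    obtain ⟨l, hl, rfl⟩ := ha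
    refine Pm.mono ?_ hl
    clear hl
    induction l with
    | nil => exact Pm_zero _
    | cons j l ih =>
      rw [List.map_cons, List.prod_cons, map_mul, List.length_cons, add_comm]
      exact (Pm_one (hθ j)).mul ih
  | zero => rw [map_zero]; exact Pm_null m
  | add a b _ _ iha ihb => rw [map_add]; exact iha.add ihb
  | smul c a _ ih => rw [Algebra.smul_def, map_mul]; exact ih.mul_left _

theorem jac_ptUnit (φ : FreeAlgebra K ι →ₐ[K] FreeAlgebra K ι)
    (h : ∀ m, ∃ (c : ι → K) (θ : FreeAlgebra K ι →ₐ[K] FreeAlgebra K ι),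
      (∃ U', U' * Jac θ = 1) ∧
      ∀ i, Pm m (tr c (φ (FreeAlgebra.ι K i)) - θ (FreeAlgebra.ι K i))) : PtUnit.{u} (Jac φ) := by
  intro S _ k _ _ π
  choose N hN using fun p : ι × ι => hg_deg (Jac φ p.1 p.2)
  obtain ⟨c, θ, ⟨U', hU⟩, hc⟩ := h (Fintype.card (ι × k) * Finset.univ.sup N + 1 + 1)
  have hJ : Jac ((tr c).comp φ) = (Ph (tr c)).toRingHom.mapMatrix (Jac φ) := by
    rw [Jac_comp, Jac_tr, mul_one]
  have := step1 (hg K ι).toRingHom hg_eval (Jac ((tr c).comp φ)) (Jac θ) U' hU (Finset.univ.sup N)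
    (Fintype.card (ι × k) * Finset.univ.sup N + 1)
    (fun i j => by
      rw [hJ]
      exact (hN (i, j) c).trans (Finset.le_sup (Finset.mem_univ _)))
    (Nat.lt_succ_self _)
    (fun i j => by
      have h1 := (hc i).2.2 j
      rw [X_pow_dvd_iff] at h1 ⊢
      intro d hd
      have h2 := h1 (d + 1) (by omega)
      rw [coeff_X_mul, map_sub, map_sub] at h2
      exact h2)
    (π.comp (Ph (tr (-c))).toRingHom)
  rw [hJ] at this
  convert this using 1
  ext1 i j
  simp [Ph_tr]

theorem unit_of_ptUnit {n : Type} [Fintype n] [DecidableEq n] (J : Matrix n n (EE K ι))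
    (hJ : PtUnit.{u} J) : IsUnit J := by
  let Ψ : EE K ι →ₐ[K] FA (FA K ι) ι :=
    lift2 (fun j => MonoidAlgebra.single 1 (MonoidAlgebra.single (FreeMonoid.of j) 1))
      (fun j => MonoidAlgebra.single (FreeMonoid.of j) 1) fun i j =>
        MonoidAlgebra.single_commute_single (Commute.one_left _) (Commute.one_right _)
  let Ψ0 : FA K ι →+* EE K ι := evF (algebraMap K _) (fun j => lE (FreeAlgebra.ι K j))
    fun x j => Algebra.commutes _ _
  have hc : ∀ x j, Commute (Ψ0 x) (rE (FreeAlgebra.ι K j)) := by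
    intro x j
    induction x using MonoidAlgebra.induction_linear with
    | zero => simp
    | add x y hx hy => rw [map_add]; exact hx.add_left hy
    | single w c =>
      simp only [Ψ0, evF, MonoidAlgebra.liftNCRingHom_single]
      refine Commute.mul_left (Algebra.commutes _ _) (comm_lift _ _ (fun i => ?_) w).symm
      exact (lr_comm _ _).symm
  let Ψ' : FA (FA K ι) ι →+* EE K ι := evF Ψ0 (fun j => rE (FreeAlgebra.ι K j)) hc
  have hΨ : ∀ e, Ψ' (Ψ e) = e := by
    intro e
    induction e using EE_ind with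
    | h0 c =>
      rw [AlgHom.commutes]
      exact (evF_one _ _ _ _).trans (evF_one _ _ _ _)
    | hl j => simp only [Ψ, lift2_lx, Ψ', evF_one, Ψ0, evF_of]
    | hr j => simp only [Ψ, lift2_rx, Ψ', evF_of]
    | hm a b iha ihb => rw [map_mul, map_mul, iha, ihb]
    | ha a b iha ihb => rw [map_add, map_add, iha, ihb]
  have := (unit_two _ (hJ.map Ψ.toRingHom)).map Ψ'.mapMatrix
  convert this using 1
  ext1 i j
  simp [hΨ]

theorem jac_unit (φ : FreeAlgebra K ι →ₐ[K] FreeAlgebra K ι)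
    (h : ∀ m : ℕ, 1 ≤ m → ∃ (ψ : FreeAlgebra K ι →ₐ[K] FreeAlgebra K ι)
      (θ : FreeAlgebra K ι ≃ₐ[K] FreeAlgebra K ι),
      (φ = ψ.comp θ.toAlgHom ∨ φ = θ.toAlgHom.comp ψ) ∧
      ∀ i, ψ (FreeAlgebra.ι K i) - FreeAlgebra.ι K i ∈ Submodule.span K
        {a | ∃ l : List ι, m ≤ l.length ∧ a = (l.map (FreeAlgebra.ι K)).prod}) :
    IsUnit (Jac φ) := by
  refine unit_of_ptUnit _ (jac_ptUnit φ fun m => ?_)
  obtain ⟨ψ, θ, h1, h2⟩ := h (m + 1) (by omega)
  rcases h1 with rfl | rfl
  · refine ⟨0, θ.toAlgHom, Jac_left_inv θ, fun i => ?_⟩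
    have h3 : tr (0 : ι → K) = AlgHom.id K _ := by ext1; ext j; simp [tr_x]
    rw [h3]
    refine (Pm_of_gen ψ (AlgHom.id K _) (fun j => ?_) _).mono (Nat.le_succ m)
    exact Pm_span (AlgHom.id K _) (fun j => by simp [FreeAlgebra.algebraMapInv]) _ _ (h2 j)
  · let c : ι → K := fun j => FreeAlgebra.algebraMapInv (θ.symm (FreeAlgebra.ι K j))
    have h3 : FreeAlgebra.algebraMapInv.comp (tr c) =
        FreeAlgebra.algebraMapInv.comp θ.symm.toAlgHom := by
      ext j
      simp [tr_x, c, FreeAlgebra.algebraMapInv]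
    refine ⟨c, (tr c).comp θ.toAlgHom, ?_, fun i => ?_⟩
    · obtain ⟨U', hU⟩ := Jac_left_inv θ
      refine ⟨(Ph (tr c)).toRingHom.mapMatrix U', ?_⟩
      rw [Jac_comp, Jac_tr, mul_one, ← map_mul, hU, map_one]
    · have := Pm_span ((tr c).comp θ.toAlgHom) (fun j => by
        have := DFunLike.congr_fun h3 (θ (FreeAlgebra.ι K j))
        simpa [FreeAlgebra.algebraMapInv] using this) _ _ (h2 i)
      rw [map_sub] at this
      exact this.mono (Nat.le_succ m)

end Pool.Agent.H.MP_54c2ef_al
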