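import Mathlib
import Pool.Agent.H.MP_54c2ef_al.Chain

set_option maxHeartbeats 400000
set_option linter.unusedSectionVars false

namespace Pool.Agent.H.MP_54c2ef_al

open MulOpposite TensorProduct Polynomial

universe u

variable {K : Type u} [Field K] {ι : Type} [Fintype ι] [DecidableEq ι]

/-- kill the left factor -/
noncomputable def bh : EE K ι →ₐ[K] (FreeAlgebra K ι)ᵐᵒᵖ :=
  lift2 (fun _ => 0) (fun j => op (FreeAlgebra.ι K j)) fun _ _ => Commute.zero_left _

lemma bh_l (a : FreeAlgebra K ι) :
    bh (lE a) = algebraMap K _ (FreeAlgebra.algebraMapInv a) := by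
  induction a using FreeAlgebra.induction with
  | grade0 c => simp only [AlgHom.commutes]; rfl
  | grade1 j => rw [bh, lift2_lx]; simp [FreeAlgebra.algebraMapInv]
  | mul a b iha ihb => simp only [map_mul, iha, ihb]
  | add a b iha ihb => simp only [map_add, iha, ihb]

lemma bh_r (a : FreeAlgebra K ι) : bh (rE a) = op a := by
  induction a using FreeAlgebra.induction with
  | grade0 c => rw [rE_alg, AlgHom.commutes]; rfl
  | grade1 j => rw [bh, lift2_rx]
  | mul a b iha ihb => rw [rE_mul, map_mul, iha, ihb, op_mul]
  | add a b iha ihb => rw [map_add, map_add, iha, ihb, op_add]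

lemma eq_zero_of_Pm (a : FreeAlgebra K ι) (h : ∀ m, Pm m a) : a = 0 := by
  have h1 : hg K ι (rE a) = 0 := by
    ext d
    exact X_pow_dvd_iff.1 (h (d + 1)).2.1 d (Nat.lt_succ_self d)
  have h2 := hg_eval (rE a)
  rw [h1, eval_zero] at h2
  have h3 := bh_r a
  rw [← h2, map_zero] at h3
  simpa using h3.symm

theorem points_inj {B : Type*} [Ring B] [Algebra K B] (y : ι → FreeAlgebra K ι)
    (P : Matrix ι ι (EE K ι))
    (hP : ∀ i, lE (FreeAlgebra.ι K i) - rE (FreeAlgebra.ι K i) =
      ∑ j, P i j * (lE (y j) - rE (y j))) (Z Z' : ι → B)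
    (h : ∀ j, FreeAlgebra.lift K Z (y j) = FreeAlgebra.lift K Z' (y j)) : Z = Z' := by
  let act : EE K ι →ₐ[K] Module.End K B :=
    lift2 (fun j => LinearMap.mulLeft K (Z j)) (fun j => LinearMap.mulRight K (Z' j)) fun i j => by
      ext b
      simp [mul_assoc]
  have hl : ∀ a b, act (lE a) b = FreeAlgebra.lift K Z a * b := by
    intro a
    induction a using FreeAlgebra.induction with
    | grade0 c => intro b; simp only [AlgHom.commutes]; simp [Algebra.smul_def]
    | grade1 j => intro b; simp only [act, lift2_lx]; simp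
    | mul a a' iha iha' =>
      intro b
      simp only [map_mul, Module.End.mul_apply, iha, iha', mul_assoc]
    | add a a' iha iha' =>
      intro b
      simp only [map_add, LinearMap.add_apply, iha, iha', add_mul]
  have hr : ∀ a b, act (rE a) b = b * FreeAlgebra.lift K Z' a := by
    intro a
    induction a using FreeAlgebra.induction with
    | grade0 c =>
      intro b
      simp only [rE_alg, AlgHom.commutes]
      rw [← Algebra.commutes]
      simp [Algebra.smul_def]
    | grade1 j => intro b; simp only [act, lift2_rx]; simp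
    | mul a a' iha iha' =>
      intro b
      rw [rE_mul]
      simp only [map_mul, Module.End.mul_apply, iha, iha', mul_assoc]
    | add a a' iha iha' =>
      intro b
      simp only [map_add, LinearMap.add_apply, iha, iha', mul_add]
  funext i
  have := congrArg (fun e => act e 1) (hP i)
  simp only [map_sub, map_sum, map_mul, LinearMap.sub_apply, LinearMap.sum_apply,
    Module.End.mul_apply, hl, hr, h, mul_one, one_mul, sub_self, map_zero,
    Finset.sum_const_zero, FreeAlgebra.lift_ι_apply] at this
  exact sub_eq_zero.1 this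

theorem points_surj {L k : Type*} [Field L] [IsAlgClosed L] [Algebra K L] [Fintype k]
    [DecidableEq k] (y : ι → FreeAlgebra K ι) (P : Matrix ι ι (EE K ι))
    (hP : ∀ i, lE (FreeAlgebra.ι K i) - rE (FreeAlgebra.ι K i) =
      ∑ j, P i j * (lE (y j) - rE (y j))) (Y : ι → Matrix k k L) :
    ∃ Z : ι → Matrix k k L, ∀ j, FreeAlgebra.lift K Z (y j) = Y j := by
  let G : ι → Matrix k k (MvPolynomial (ι × k × k) L) := fun j =>
    Matrix.of fun p q => MvPolynomial.X (j, p, q)
  have key : ∀ (v : ι × k × k → L) a p q, MvPolynomial.eval v (FreeAlgebra.lift K G a p q) =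
      FreeAlgebra.lift K (fun j => Matrix.of fun p q => v (j, p, q)) a p q := by
    intro v a p q
    have : (((MvPolynomial.aeval v).restrictScalars K).mapMatrix).comp (FreeAlgebra.lift K G) =
        FreeAlgebra.lift K (fun j => Matrix.of fun p q => v (j, p, q)) := by
      ext j p q
      simp [G]
    rw [← this]
    simp
  have := ax_grothendieck_univ (fun s : ι × k × k => FreeAlgebra.lift K G (y s.1) s.2.1 s.2.2) (by
    intro v v' hv
    have := points_inj y P hP (fun j => Matrix.of fun p q => v (j, p, q))
      (fun j => Matrix.of fun p q => v' (j, p, q)) fun j => by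
        ext p q
        rw [← key, ← key]
        exact congrFun hv (j, p, q)
    funext s
    exact congrFun (congrFun (congrFun this s.1) s.2.1) s.2.2)
  obtain ⟨v, hv⟩ := this fun s => Y s.1 s.2.1 s.2.2
  refine ⟨fun j => Matrix.of fun p q => v (j, p, q), fun j => ?_⟩
  ext p q
  rw [← key]
  exact congrFun hv (j, p, q)

theorem free_sep {L : Type*} [Field L] [Algebra K L] (a : FreeAlgebra K ι)
    (h : ∀ w : List ι, FreeAlgebra.lift K (pth L w) a = 0) : a = 0 := by
  apply (FreeAlgebra.equivMonoidAlgebraFreeMonoid (R := K) (X := ι)).injective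
  rw [map_zero]
  ext w
  have := pth_sep (algebraMap K L) (FreeMonoid.toList w)
    ((FreeAlgebra.lift K (pth L (FreeMonoid.toList w))).comp
      (FreeAlgebra.equivMonoidAlgebraFreeMonoid (R := K) (X := ι)).symm.toAlgHom).toRingHom
    (fun c => ((FreeAlgebra.lift K (pth L (FreeMonoid.toList w))).comp
      (FreeAlgebra.equivMonoidAlgebraFreeMonoid (R := K) (X := ι)).symm.toAlgHom).commutes c)
    (fun j => by simp [FreeAlgebra.equivMonoidAlgebraFreeMonoid])
    (FreeAlgebra.equivMonoidAlgebraFreeMonoid a)
  simp only [AlgHom.toRingHom_eq_coe, RingHom.coe_coe, AlgHom.comp_apply, AlgEquiv.coe_toAlgHom,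
    AlgEquiv.symm_apply_apply, h, Matrix.zero_apply, FreeMonoid.ofList_toList] at this
  simpa using this.symm

theorem bij_of_jac_unit (φ : FreeAlgebra K ι →ₐ[K] FreeAlgebra K ι) (h : IsUnit (Jac φ)) :
    Function.Bijective φ := by
  obtain ⟨P, hJP, hPJ⟩ := isUnit_iff_exists.1 h
  set ε : FreeAlgebra K ι →ₐ[K] K := FreeAlgebra.algebraMapInv with hε
  set y : ι → FreeAlgebra K ι := fun j =>
    φ (FreeAlgebra.ι K j) - algebraMap K _ (ε (φ (FreeAlgebra.ι K j))) with hy
  have hεy : ∀ j, ε (y j) = 0 := by
    intro j
    simp only [hy, map_sub, AlgHom.commutes]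
    simp
  have hdy : ∀ i j, dd i (y j) = Jac φ j i := by
    intro i j
    simp only [hy, map_sub, dd_alg, sub_zero]
    rfl
  have hP : ∀ i, lE (FreeAlgebra.ι K i) - rE (FreeAlgebra.ι K i) =
      ∑ j, P i j * (lE (y j) - rE (y j)) := by
    intro i
    simp only [DD_eq (y _), hdy, Finset.mul_sum, ← mul_assoc]
    rw [Finset.sum_comm]
    simp only [← Finset.sum_mul, ← Matrix.mul_apply, hPJ]
    simp [Matrix.one_apply]
  let T : ι → Module.End K (FreeAlgebra K ι) := fun j =>
    { toFun := fun a => unop (bh (∑ i, dd i a * P i j))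
      map_add' := fun a b => by simp [add_mul, Finset.sum_add_distrib]
      map_smul' := fun c a => by simp [Finset.smul_sum] }
  have hT : ∀ j a, T j a = unop (bh (∑ i, dd i a * P i j)) := fun j a => rfl
  have hT1 : ∀ a, a = algebraMap K _ (ε a) + ∑ j, y j * T j a := by
    intro a
    have h1 := DD_eq a
    simp only [hP, Finset.mul_sum, ← mul_assoc] at h1
    rw [Finset.sum_comm] at h1
    simp only [← Finset.sum_mul] at h1
    have h2 := congrArg (fun e => unop (bh e)) h1
    simp only [map_sub, map_sum bh (fun j => _ * (lE (y j) - rE (y j))), map_mul, bh_l, bh_r,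
      ← hε, hεy, map_zero, zero_sub, mul_neg, unop_sub, unop_op, Finset.unop_sum, unop_neg,
      unop_mul, ← hT, Finset.sum_neg_distrib] at h2
    rw [← sub_eq_zero, ← neg_eq_zero]
    have h3 : unop (algebraMap K (FreeAlgebra K ι)ᵐᵒᵖ (ε a)) = algebraMap K _ (ε a) := rfl
    rw [h3] at h2
    rw [← sub_eq_zero] at h2
    rw [← h2]
    abel
  have hT2 : ∀ j a b, T j (a * b) = T j a * b + ε a • T j b := by
    intro j a b
    simp only [hT, dd_mul, add_mul, Finset.sum_add_distrib, mul_assoc, ← Finset.mul_sum, map_add,
      map_mul, bh_l, bh_r, ← hε, ← Algebra.smul_def, unop_add, unop_smul, unop_mul, unop_op]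
    rw [add_comm]
  have hT3 : ∀ j k, T j (y k) = if k = j then 1 else 0 := by
    intro j k
    simp only [hT, hdy, ← Matrix.mul_apply, hJP, Matrix.one_apply]
    split_ifs <;> simp
  have hT4 : ∀ j, T j 1 = 0 := by
    intro j
    have : ∀ i, dd i (1 : FreeAlgebra K ι) = 0 := fun i => by simpa using dd_alg i (1 : K)
    simp [hT, this]
  have hcons : ∀ k w a, wp T (k :: w).reverse a = wp T w.reverse (T k a) := by
    intro k w a
    rw [List.reverse_cons, wp_append]
    simp [wp]
  have hone : ∀ w : List ι, w ≠ [] → wp T w.reverse 1 = 0 := by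
    rintro (_ | ⟨k, w⟩) hw
    · exact absurd rfl hw
    · rw [hcons, hT4, map_zero]
  have hstar : ∀ (j) (w : List ι) (a), ∃ c : K,
      wp T w.reverse (a * y j) = wp T w.reverse a * y j + c • 1 := by
    intro j w
    induction w with
    | nil => exact fun a => ⟨0, by simp⟩
    | cons k w ih =>
      intro a
      obtain ⟨c, hc⟩ := ih (T k a)
      rw [hcons, hcons, hT2, map_add, hc, hT3, map_smul]
      by_cases hw : w = []
      · subst hw
        refine ⟨c + ε a * if j = k then 1 else 0, ?_⟩
        split_ifs <;> simp [add_smul, add_assoc]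
      · refine ⟨c, ?_⟩
        split_ifs <;> simp [hone w hw]
  let β : List ι → EE K ι →ₗ[K] FreeAlgebra K ι := fun w =>
    LinearMap.mul' K _ ∘ₗ TensorProduct.map (wp T w.reverse) (opLinearEquiv K).symm.toLinearMap
  have hβ : ∀ w a b, β w (a ⊗ₜ[K] op b) = wp T w.reverse a * b := by
    intro w a b
    simp [β]
  have hfin : ∀ e : EE K ι, ∃ W : Submodule K (FreeAlgebra K ι), FiniteDimensional K W ∧
      ∀ w j, β w (e * (lE (y j) - rE (y j))) ∈ W := by
    intro e
    induction e using TensorProduct.induction_on with
    | zero => exact ⟨⊥, inferInstance, by simp⟩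
    | tmul a b =>
      refine ⟨K ∙ unop b, inferInstance, fun w j => ?_⟩
      obtain ⟨c, hc⟩ := hstar j w a
      rw [mul_sub, lE_apply, rE_apply, Algebra.TensorProduct.tmul_mul_tmul,
        Algebra.TensorProduct.tmul_mul_tmul, mul_one, mul_one, ← op_unop b, ← op_mul, map_sub, hβ,
        hβ, hc, add_mul, mul_assoc, add_sub_cancel_left, smul_mul_assoc, one_mul]
      exact Submodule.smul_mem _ _ (Submodule.mem_span_singleton_self _)
    | add e e' ih ih' =>
      obtain ⟨W, _, hW⟩ := ih
      obtain ⟨W', _, hW'⟩ := ih'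
      refine ⟨W ⊔ W', inferInstance, fun w j => ?_⟩
      rw [add_mul, map_add]
      exact Submodule.add_mem_sup (hW w j) (hW' w j)
  choose W hWf hW using hfin
  let V : Submodule K (FreeAlgebra K ι) :=
    Submodule.span K (Set.range fun s : List ι × ι => wp T s.1 (FreeAlgebra.ι K s.2))
  have hVf : FiniteDimensional K V := by
    have : V ≤ (⨆ i : ι, K ∙ FreeAlgebra.ι K i) ⊔ ⨆ s : ι × ι, W (P s.1 s.2) := by
      rw [Submodule.span_le]
      rintro _ ⟨⟨w, i⟩, rfl⟩
      by_cases hw : w = []
      · subst hw
        exact Submodule.mem_sup_left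
          (Submodule.mem_iSup_of_mem i (Submodule.mem_span_singleton_self _))
      · refine Submodule.mem_sup_right ?_
        have h1 := congrArg (β w.reverse) (hP i)
        rw [map_sub, lE_apply, rE_apply, ← op_one, hβ, hβ, hone _ (by simpa using hw), zero_mul,
          sub_zero, mul_one, List.reverse_reverse, map_sum] at h1
        change wp T w (FreeAlgebra.ι K i) ∈ _
        rw [h1]
        exact Submodule.sum_mem _ fun j _ => Submodule.mem_iSup_of_mem (i, j) (hW _ _ _)
    exact Submodule.finiteDimensional_of_le this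
  have hVinv : ∀ j, ∀ x ∈ V, T j x ∈ V := by
    intro j x hx
    have : V.map (T j) ≤ V := by
      rw [Submodule.map_span_le]
      rintro _ ⟨⟨w, i⟩, rfl⟩
      refine Submodule.subset_span ⟨(j :: w, i), ?_⟩
      simp only [wp_cons]
      rfl
    exact this ⟨x, hx, rfl⟩
  have hsep : ∀ a, (∀ r : List ι, ε (wp T r.reverse a) = 0) → a = 0 := by
    intro a ha
    refine eq_zero_of_Pm a fun m => ?_
    induction m generalizing a with
    | zero => exact Pm_zero _
    | succ m ih =>
      have h0 : ε a = 0 := by simpa using ha []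
      rw [hT1 a, h0, map_zero, zero_add, add_comm]
      refine Finset.sum_induction _ (Pm (1 + m)) (fun _ _ => Pm.add) (Pm_null _) fun j _ => ?_
      refine (Pm_one (hεy j)).mul (ih _ fun r => ?_)
      rw [← hcons]
      exact ha _
  have hnil : ∀ w : List ι, w ≠ [] → ∃ k : ℕ, ∀ x ∈ V, ((wp T w) ^ k) x = 0 := by
    intro u hu
    obtain ⟨w, e, hwe⟩ : ∃ w' e, u.reverse = w' ++ [e] :=
      ⟨u.reverse.dropLast, u.reverse.getLast (by simpa using hu),
        (List.dropLast_append_getLast _).symm⟩
    have hinv : ∀ x ∈ V, wp T u x ∈ V := wp_mem T V hVinv u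
    have : IsNilpotent ((wp T u).restrict hinv) := by
      refine nil_of_functionals (L := AlgebraicClosure K) _
        (fun r : List ι => ε.toLinearMap ∘ₗ wp T r.reverse ∘ₗ V.subtype)
        (fun s hs => Subtype.ext (hsep _ hs)) fun r μ => ?_
      obtain ⟨Z, hZ⟩ := points_surj y P hP (aut μ w e r)
      let G : St w r → FreeAlgebra K ι → AlgebraicClosure K := fun p a =>
        FreeAlgebra.lift K Z a p (Sum.inr (Fin.last _))
      have hG : ∀ p a, G p a = (if p = Sum.inr (Fin.last _) then algebraMap K _ (ε a) else 0)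
          + ∑ j, ∑ q, (1 * aut μ w e r j p q) * G q (T j a) := by
        intro p a
        simp only [G]
        conv_lhs => rw [hT1 a]
        simp only [map_add, map_sum, map_mul, AlgHom.commutes, hZ, Matrix.add_apply,
          Matrix.sum_apply, Matrix.mul_apply, Matrix.algebraMap_matrix_apply, one_mul]
      let γ : V →ₗ[K] AlgebraicClosure K :=
        { toFun := fun a => G (Sum.inl 0) a + G (Sum.inr 0) a
          map_add' := fun a b => by
            simp only [G, Submodule.coe_add, map_add, Matrix.add_apply]
            ring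
          map_smul' := fun c a => by
            simp only [G, Submodule.coe_smul, map_smul, Matrix.smul_apply, RingHom.id_apply,
              smul_add] }
      refine ⟨γ, fun a => ?_⟩
      have := aut_lemma μ 1 w e r (fun j => (T j : _ → _)) (fun a => algebraMap K _ (ε a)) G hG a
      simp only [one_pow, one_mul] at this
      rw [it_eq_wp, it_eq_wp, ← hwe, List.reverse_reverse] at this
      exact this
    obtain ⟨k, hk⟩ := this
    refine ⟨k, fun x hx => ?_⟩
    rw [Module.End.pow_restrict] at hk
    exact congrArg Subtype.val (LinearMap.congr_fun hk ⟨x, hx⟩)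
  have hrange : ∀ (N : ℕ) a, (∀ w : List ι, w.length = N → wp T w.reverse a = 0) →
      a ∈ φ.range := by
    intro N
    induction N with
    | zero =>
      intro a ha
      have : a = 0 := by simpa using ha [] rfl
      rw [this]
      exact zero_mem _
    | succ N ih =>
      intro a ha
      rw [hT1 a]
      refine add_mem (Subalgebra.algebraMap_mem _ _) (sum_mem fun j _ => mul_mem ?_ ?_)
      · exact sub_mem ⟨_, rfl⟩ (Subalgebra.algebraMap_mem _ _)
      · refine ih _ fun w hw => ?_
        rw [← hcons]
        exact ha _ (by simp [hw])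
  constructor
  · rw [injective_iff_map_eq_zero]
    intro a ha
    refine free_sep (L := AlgebraicClosure K) a fun w => ?_
    obtain ⟨Z, hZ⟩ := points_surj y P hP
      (fun j => pth (AlgebraicClosure K) w j - algebraMap K _ (ε (φ (FreeAlgebra.ι K j))))
    have : FreeAlgebra.lift K (pth (AlgebraicClosure K) w) = (FreeAlgebra.lift K Z).comp φ := by
      ext1
      funext j
      have := hZ j
      simp only [hy, map_sub, AlgHom.commutes, sub_left_inj] at this
      simp [this]
    rw [this, AlgHom.comp_apply, ha, map_zero]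
  · intro a
    change a ∈ φ.range
    induction a using FreeAlgebra.induction with
    | grade0 c => exact Subalgebra.algebraMap_mem _ _
    | grade1 i =>
      exact hrange (Module.finrank K V) _ fun w hw => levitzki T V hVinv hnil _ (by simp [hw]) _
        (Submodule.subset_span ⟨([], i), by simp⟩)
    | mul a b iha ihb => exact mul_mem iha ihb
    | add a b iha ihb => exact add_mem iha ihb

end Pool.Agent.H.MP_54c2ef_al
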